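import Pool.Agent.TH838.J1549
import Pool.Agent.TH636.BC.PM

/-!
# Derivations with bounds for the number of lines, the lengths and the complexity of the lines
-/

set_option autoImplicit false

namespace Pool.Agent.T9h6.BC

open Pool.Agent.TH672 (Fm Str upd varStr num digits LogK ReplK Sw Pv)
open Pool.Agent.TH636.BC
open Pool.Agent.TH838.J1549 (step_mono isProof_append)

/-- the length of the string -/
def sz (φ : Fml) : ℕ := (str φ).length

section szs
variable (x y z i a b c d : ℕ) (φ ψ : Fml)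

theorem len_varStr : (varStr x).length = x + 1 := by simp [varStr]

@[simp] theorem sz_bot : sz (.bot : Fml) = 4 := rfl
@[simp] theorem sz_eq : sz (.eq x y) = 4 + (x + 1) + (y + 1) := by
  simp only [sz, str, List.length_append, len_varStr]; rfl
@[simp] theorem sz_zero : sz (.zero x) = 4 + (x + 1) := by
  simp only [sz, str, List.length_append, len_varStr]; rfl
@[simp] theorem sz_succ : sz (.succ x y) = 4 + (x + 1) + (y + 1) := by
  simp only [sz, str, List.length_append, len_varStr]; rfl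
@[simp] theorem sz_add : sz (.add x y z) = 4 + (x + 1) + (y + 1) + (z + 1) := by
  simp only [sz, str, List.length_append, len_varStr]; rfl
@[simp] theorem sz_mul : sz (.mul x y z) = 4 + (x + 1) + (y + 1) + (z + 1) := by
  simp only [sz, str, List.length_append, len_varStr]; rfl
@[simp] theorem sz_op : sz (.op i a b c d) = 4 + (i + 1) + (a + 1) + (b + 1) + (c + 1) + (d + 1) := by
  simp only [sz, str, List.length_append, len_varStr]; rfl
@[simp] theorem sz_imp : sz (.imp φ ψ) = 4 + sz φ + sz ψ := by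
  simp only [sz, str, List.length_append]; rfl
@[simp] theorem sz_all : sz (.all x φ) = 4 + (x + 1) + sz φ := by
  simp only [sz, str, List.length_append, len_varStr]; rfl
@[simp] theorem sz_neg : sz (.neg φ) = 8 + sz φ := by
  simp only [Fm.neg, sz_imp, sz_bot]; omega
@[simp] theorem sz_and : sz (.and φ ψ) = 20 + sz φ + sz ψ := by
  simp only [Fm.and, sz_imp, sz_neg]; omega
@[simp] theorem sz_or : sz (.or φ ψ) = 12 + sz φ + sz ψ := by
  simp only [Fm.or, sz_imp, sz_neg]; omega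
@[simp] theorem sz_ex : sz (.ex x φ) = 20 + (x + 1) + sz φ := by
  simp only [Fm.ex, sz_all, sz_neg]; omega

end szs

theorem sz_pos (φ : Fml) : 4 ≤ sz φ := by
  cases φ <;> simp <;> omega

/-- all variables occur in the string -/
theorem vlt_sz : ∀ φ : Fml, Vlt (sz φ) φ := by
  have mono : ∀ {m n : ℕ} {φ : Fml}, m ≤ n → Vlt m φ → Vlt n φ := by
    intro m n φ h
    induction φ with
    | bot => exact fun _ => trivial
    | eq x y => exact fun ⟨h1, h2⟩ => ⟨by omega, by omega⟩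
    | zero x => exact fun h1 => lt_of_lt_of_le h1 h
    | succ x y => exact fun ⟨h1, h2⟩ => ⟨by omega, by omega⟩
    | add x y z => exact fun ⟨h1, h2, h3⟩ => ⟨by omega, by omega, by omega⟩
    | mul x y z => exact fun ⟨h1, h2, h3⟩ => ⟨by omega, by omega, by omega⟩
    | op i a b c d =>
      exact fun ⟨h1, h2, h3, h4⟩ => ⟨by omega, by omega, by omega, by omega⟩
    | imp φ ψ ih1 ih2 => exact fun ⟨h1, h2⟩ => ⟨ih1 h1, ih2 h2⟩
    | all x φ ih => exact fun ⟨h1, h2⟩ => ⟨by omega, ih h2⟩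
  intro φ
  induction φ with
  | bot => trivial
  | eq x y => exact ⟨by simp; omega, by simp; omega⟩
  | zero x => show x < _; simp; omega
  | succ x y => exact ⟨by simp; omega, by simp; omega⟩
  | add x y z => exact ⟨by simp; omega, by simp; omega, by simp; omega⟩
  | mul x y z => exact ⟨by simp; omega, by simp; omega, by simp; omega⟩
  | op i a b c d => exact ⟨by simp; omega, by simp; omega, by simp; omega, by simp; omega⟩
  | imp φ ψ ih1 ih2 => exact ⟨mono (by simp; omega) ih1, mono (by simp) ih2⟩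
  | all x φ ih => exact ⟨by simp; omega, mono (by simp) ih⟩

theorem Vlt.mono {m n : ℕ} {φ : Fml} (h : m ≤ n) : Vlt m φ → Vlt n φ := by
  induction φ with
  | bot => exact fun _ => trivial
  | eq x y => exact fun ⟨h1, h2⟩ => ⟨by omega, by omega⟩
  | zero x => exact fun h1 => lt_of_lt_of_le h1 h
  | succ x y => exact fun ⟨h1, h2⟩ => ⟨by omega, by omega⟩
  | add x y z => exact fun ⟨h1, h2, h3⟩ => ⟨by omega, by omega, by omega⟩
  | mul x y z => exact fun ⟨h1, h2, h3⟩ => ⟨by omega, by omega, by omega⟩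
  | op i a b c d =>
    exact fun ⟨h1, h2, h3, h4⟩ => ⟨by omega, by omega, by omega, by omega⟩
  | imp φ ψ ih1 ih2 => exact fun ⟨h1, h2⟩ => ⟨ih1 h1, ih2 h2⟩
  | all x φ ih => exact fun ⟨h1, h2⟩ => ⟨by omega, ih h2⟩

theorem lt_of_free {m x : ℕ} {φ : Fml} (h : Vlt m φ) (hx : φ.Free x) : x < m := by
  induction φ with
  | bot => exact hx.elim
  | eq u v => rcases hx with rfl | rfl; exacts [h.1, h.2]
  | zero u => cases hx; exact h
  | succ u v => rcases hx with rfl | rfl; exacts [h.1, h.2]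
  | add u v w => rcases hx with rfl | rfl | rfl; exacts [h.1, h.2.1, h.2.2]
  | mul u v w => rcases hx with rfl | rfl | rfl; exacts [h.1, h.2.1, h.2.2]
  | op i a b c d => rcases hx with rfl | rfl | rfl | rfl; exacts [h.1, h.2.1, h.2.2.1, h.2.2.2]
  | imp φ ψ ih1 ih2 => rcases hx with hx | hx; exacts [ih1 h.1 hx, ih2 h.2 hx]
  | all u φ ih => exact ih h.2 hx.2

theorem lt_of_bd {m x : ℕ} {φ : Fml} (h : Vlt m φ) (hx : φ.Bd x) : x < m := by
  induction φ with
  | imp φ ψ ih1 ih2 => rcases hx with hx | hx; exacts [ih1 h.1 hx, ih2 h.2 hx]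
  | all u φ ih => rcases hx with rfl | hx; exacts [h.1, ih h.2 hx]
  | _ => exact hx.elim

/-! ### complexity -/

theorem _root_.Pool.Agent.TH636.BC.Cx.mono {s : Bool} {k k' : ℕ} {φ : Fml} (hk : k ≤ k') (h : Cx s k φ) : Cx s k' φ := by
  induction hk with
  | refl => exact h
  | step _ ih => exact ih.lift

/-- the formula is both a `Σ_k` formula and a `Π_k` formula -/
def Both (k : ℕ) (φ : Fml) : Prop := ∀ s, Cx s k φ

theorem Both.mono {k k' : ℕ} {φ : Fml} (hk : k ≤ k') (h : Both k φ) : Both k' φ :=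
  fun s => (h s).mono hk

theorem Both.imp {k : ℕ} {φ ψ : Fml} (h1 : Both k φ) (h2 : Both k ψ) : Both k (.imp φ ψ) :=
  fun s => .imp (h1 _) (h2 s)

theorem Both.bot {k : ℕ} : Both k .bot := fun s => .bot s k

theorem Both.neg {k : ℕ} {φ : Fml} (h1 : Both k φ) : Both k (.neg φ) := h1.imp .bot

theorem Both.and {k : ℕ} {φ ψ : Fml} (h1 : Both k φ) (h2 : Both k ψ) : Both k (.and φ ψ) :=
  (h1.imp h2.neg).neg

theorem Both.or {k : ℕ} {φ ψ : Fml} (h1 : Both k φ) (h2 : Both k ψ) : Both k (.or φ ψ) :=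
  h1.neg.imp h2

theorem Both.all {k : ℕ} {φ : Fml} (x : ℕ) (h : Both k φ) : Both (k + 2) (.all x φ) :=
  fun _ => (Cx.all (k := k) (h false).lift).lift

theorem cx_imp_right {s : Bool} {k : ℕ} {φ ψ : Fml} (h : Cx s k (.imp φ ψ)) : Cx s k ψ := by
  generalize e : Fm.imp φ ψ = χ at h
  induction h with
  | imp _ h2 => cases e; exact h2
  | lift _ ih => exact (ih e).lift
  | _ => cases e

/-- twice the quantifier depth -/
def qd : Fml → ℕ
  | .imp φ ψ => max (qd φ) (qd ψ)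
  | .all _ φ => qd φ + 2
  | _ => 0

theorem both_qd : ∀ φ : Fml, Both (qd φ) φ := by
  intro φ
  induction φ with
  | bot => exact fun s => .bot s _
  | eq x y => exact fun s => .eq s _ x y
  | zero x => exact fun s => .zero s _ x
  | succ x y => exact fun s => .succ s _ x y
  | add x y z => exact fun s => .add s _ x y z
  | mul x y z => exact fun s => .mul s _ x y z
  | op i a b c d => exact fun s => .op s _ i a b c d
  | imp φ ψ ih1 ih2 => exact (ih1.mono (le_max_left _ _)).imp (ih2.mono (le_max_right _ _))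
  | all x φ ih => exact ih.all x

/-! ### derivations -/

/-- the formula has length at most `B` and is a `Π_k` formula -/
structure Gd (k B : ℕ) (φ : Fml) : Prop where
  sz : sz φ ≤ B
  cx : Cx false k φ

theorem Gd.mono {k k' B B' : ℕ} {φ : Fml} (hk : k ≤ k') (hB : B ≤ B') (h : Gd k B φ) :
    Gd k' B' φ := ⟨h.sz.trans hB, h.cx.mono hk⟩

/-- `φ` has a derivation from `Γ` with at most `L` lines, all of length at most `B` and in `Π_k`. -/
def Dv (Γ : List Fml) (k B L : ℕ) (φ : Fml) : Prop :=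
  ∃ π, IsProof Γ (φ :: π) ∧ (φ :: π).length ≤ L ∧ ∀ ψ ∈ φ :: π, Gd k B ψ

variable {Γ : List Fml} {k B L : ℕ} {φ ψ : Fml}

theorem Dv.gd (h : Dv Γ k B L φ) : Gd k B φ := by
  obtain ⟨π, _, _, h⟩ := h
  exact h φ (List.mem_cons_self ..)

theorem Dv.mono {k' B' L' : ℕ} (hk : k ≤ k') (hB : B ≤ B') (hL : L ≤ L') (h : Dv Γ k B L φ) :
    Dv Γ k' B' L' φ := by
  obtain ⟨π, h1, h2, h3⟩ := h
  exact ⟨π, h1, h2.trans hL, fun ψ hψ => (h3 ψ hψ).mono hk hB⟩

theorem Dv.ax (h : φ ∈ Γ) (g : Gd k B φ) : Dv Γ k B 1 φ :=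
  ⟨[], ⟨trivial, .inl h⟩, by simp, by simpa using g⟩

theorem Dv.log (h : LogK φ) (g : Gd k B φ) : Dv Γ k B 1 φ :=
  ⟨[], ⟨trivial, .inr (.inl h)⟩, by simp, by simpa using g⟩

theorem Dv.mp {L1 L2 : ℕ} (h1 : Dv Γ k B L1 (.imp φ ψ)) (h2 : Dv Γ k B L2 φ) :
    Dv Γ k B (L1 + L2 + 1) ψ := by
  have g : Gd k B ψ := ⟨by have := h1.gd.sz; simp at this; omega, cx_imp_right h1.gd.cx⟩
  obtain ⟨π1, a1, a2, a3⟩ := h1
  obtain ⟨π2, b1, b2, b3⟩ := h2
  refine ⟨(φ.imp ψ :: π1) ++ (φ :: π2), ⟨isProof_append a1 b1,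
      .inr (.inr (.inl ⟨φ, by simp, by simp⟩))⟩, ?_, ?_⟩
  · simp only [List.length_cons, List.length_append] at a2 b2 ⊢; omega
  · intro χ hχ
    rcases List.mem_cons.1 hχ with rfl | hχ
    · exact g
    · rcases List.mem_append.1 hχ with hχ | hχ
      · exact a3 χ hχ
      · exact b3 χ hχ

theorem Dv.gen (x : ℕ) (hk : 1 ≤ k) (h : Dv Γ k B L φ) (hs : sz (.all x φ) ≤ B) :
    Dv Γ k B (L + 1) (.all x φ) := by
  have g : Gd k B (.all x φ) := by
    obtain ⟨k, rfl⟩ := Nat.exists_eq_add_of_le' hk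
    exact ⟨hs, .all h.gd.cx⟩
  obtain ⟨π, a1, a2, a3⟩ := h
  refine ⟨φ :: π, ⟨a1, .inr (.inr (.inr ⟨φ, by simp, x, rfl⟩))⟩, ?_, ?_⟩
  · simp only [List.length_cons] at a2 ⊢; omega
  · intro χ hχ
    rcases List.mem_cons.1 hχ with rfl | hχ
    · exact g
    · exact a3 χ hχ

theorem Dv.id (Γ : List Fml) (h : Both k φ) : Dv Γ k (12 * sz φ + 32) 5 (.imp φ φ) := by
  have p := sz_pos φ
  have b1 : Both k (.imp φ φ) := h.imp h
  have h1 : Dv Γ k (12 * sz φ + 32) 1
      (.imp (.imp φ (.imp (.imp φ φ) φ)) (.imp (.imp φ (.imp φ φ)) (.imp φ φ))) :=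
    .log (.s φ (.imp φ φ) φ) ⟨by simp; omega, (h.imp (b1.imp h)).imp ((h.imp b1).imp b1) false⟩
  have h2 : Dv Γ k (12 * sz φ + 32) 1 (.imp φ (.imp (.imp φ φ) φ)) :=
    .log (.k φ (.imp φ φ)) ⟨by simp; omega, h.imp (b1.imp h) false⟩
  have h3 : Dv Γ k (12 * sz φ + 32) 1 (.imp φ (.imp φ φ)) :=
    .log (.k φ φ) ⟨by simp; omega, h.imp b1 false⟩
  exact ((h1.mp h2).mp h3).mono le_rfl le_rfl (by omega)

/-- `φ → ψ → ψ` -/
theorem Dv.kid (Γ : List Fml) (h : Both k φ) (h' : Both k ψ) :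
    Dv Γ k (12 * sz φ + 12 * sz ψ + 32) 7 (.imp φ (.imp ψ ψ)) := by
  have p := sz_pos φ
  have p' := sz_pos ψ
  have h1 : Dv Γ k (12 * sz φ + 12 * sz ψ + 32) 1 (.imp (.imp ψ ψ) (.imp φ (.imp ψ ψ))) :=
    .log (.k _ _) ⟨by simp; omega, (h'.imp h').imp (h.imp (h'.imp h')) false⟩
  exact (h1.mp ((Dv.id Γ h').mono le_rfl (by omega) le_rfl)).mono le_rfl le_rfl (by omega)

/-- generalization in the conclusion -/
theorem Dv.dist (x : ℕ) {k' : ℕ} (hk : 1 ≤ k') (hk' : k' < k) (h : Dv Γ k B L (.imp φ ψ))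
    (hx : ¬ φ.Free x) (c1 : Cx true k' φ) (c2 : Cx false k' ψ)
    (hs : 2 * sz φ + 2 * sz ψ + 2 * x + 40 ≤ B) :
    Dv Γ k B (L + 3) (.imp φ (.all x ψ)) := by
  have h1 : Dv Γ k B (L + 1) (.all x (.imp φ ψ)) :=
    h.gen x (by omega) (by rw [sz_all, sz_imp]; omega)
  have c3 : Cx false k' (.all x ψ) := by
    obtain ⟨k', rfl⟩ := Nat.exists_eq_add_of_le' hk
    exact .all c2
  have c4 : Cx false k' (.all x (.imp φ ψ)) := by
    obtain ⟨k', rfl⟩ := Nat.exists_eq_add_of_le' hk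
    exact .all (.imp c1 c2)
  have c5 : Cx true k (.all x (.imp φ ψ)) := (Cx.lift (s' := true) c4).mono hk'
  have h2 : Dv Γ k B 1 (.imp (.all x (.imp φ ψ)) (.imp φ (.all x ψ))) :=
    .log (.dist x φ ψ hx) ⟨by simp only [sz_imp, sz_all]; omega,
      .imp c5 (.imp (c1.mono hk'.le) (c3.mono hk'.le))⟩
  exact (h2.mp h1).mono le_rfl le_rfl (by omega)

end Pool.Agent.T9h6.BC
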