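import Pool.Agent.T9h6.BC.Rel2
import Pool.Agent.TH197.J1545b
import Pool.Agent.T9h6.BC.Dv

/-!
# Consistency of the theory `T(Γ)`
-/

set_option autoImplicit false

namespace Pool.Agent.T9h6.BC

open Pool.Agent.TH672 (Fm Str upd varStr num digits LogK ReplK Sw Pv upd_same upd_ne)
open Pool.Agent.TH636.BC
open Pool.Agent.TH838.J1549 (sat_cong sat_inst sat_inst3 free_inst Q exists_Q)
open Pool.Agent.TH197.J1545 (D Dsucc sat_proves sat_robinson code_inj)
open Pool.Agent.TH554.J1548 (str_le_strs)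

/-- the axioms are true in the pseudo-model -/
def AxS2 : Prop := ∀ P : Fml, Arith P → (∀ x, P.Free x → x = 2 ∨ x = 3 ∨ x = 4) → ∀ m : ℕ,
  (∀ y < m, ∃ k, Proves robinson k (inst 2 (code (Ax P)) (inst 3 y (inst 4 (code [Fm.bot])
    P.neg)))) → ∀ φ ∈ Ax P, Vlt m φ → Tr1 m φ

/-- arithmetical sentences in the pseudo-model -/
def BF : Prop := ∀ (m : ℕ) (φ : Fml), Arith φ → φ.Closed → Vlt m φ →
  (Tr1 m φ ↔ ∀ v : ℕ → D.M, Fm.Sat D φ v)

theorem exists_QD : ∃ q : Q D, ∀ n, q.nm n = Sum.inl n := by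
  obtain ⟨q⟩ := exists_Q (S := D) (fun _ => Sum.inl 0) fun ψ hψ => sat_robinson ψ hψ _
  refine ⟨q, fun n => ?_⟩
  induction n with
  | zero => exact ((q.zero_iff (Sum.inl 0)).1 rfl).symm
  | succ n ih =>
    have h1 : D.succ (q.nm n) (q.nm (n + 1)) := (q.succ_iff _ _).2 rfl
    rw [ih] at h1
    exact h1

theorem arith_iter {φ : Fml} (h : Arith φ) : ∀ n, Arith (blk^[n] φ)
  | 0 => h
  | n + 1 => by
    rw [Function.iterate_succ_apply']
    exact ⟨trivial, trivial, arith_iter h n⟩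

theorem arith_inst {φ : Fml} {x n : ℕ} (h : Arith φ) : Arith (inst x n φ) :=
  ⟨trivial, arith_iter (φ := .all x (.imp (.eq x 0) φ)) ⟨trivial, h⟩ n⟩

theorem arith_conV {V : Fml} (h : Arith V) (Γ : List Fml) (k : ℕ) : Arith (conV V Γ k) :=
  arith_inst (arith_inst ⟨⟨trivial, trivial⟩, h, trivial⟩)

theorem free_Phi {V : Fml} (h : ∀ x, V.Free x → x = 2 ∨ x = 3 ∨ x = 4) {x : ℕ}
    (hx : (Phi V).Free x) : x = 2 ∨ x = 3 := by
  simp only [Phi, Fm.neg, Fm.Free, or_false, or_self] at hx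
  obtain ⟨h1, h2 | h2⟩ := hx
  · exact absurd h2 h1
  · have := h x h2
    omega

theorem closed_conV {V : Fml} (h : ∀ x, V.Free x → x = 2 ∨ x = 3 ∨ x = 4) (Γ : List Fml)
    (k : ℕ) : (conV V Γ k).Closed := by
  intro x hx
  have h1 := free_inst hx
  have h2 := free_inst h1.2.2
  have h3 := free_Phi h (x := x) h2.2.2
  omega

/-- If there is no refutation with the variables below `k`, the sentence `Con^(k)` is true in the
real structure. -/
theorem sat_conV {V : Fml} (hV : Num RefRel V) (Γ : List Fml) (k : ℕ)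
    (h : ∀ x, ¬ RefRel (code Γ) k x) (v : ℕ → D.M) (φ : Fml) (hφ : φ = conV V Γ k) :
    Fm.Sat D φ v := by
  obtain ⟨q, hq⟩ := exists_QD
  have hfr := hV.free
  have f0 : ¬ (Phi V).Free 0 := fun h => by have := free_Phi hfr h; omega
  have f1 : ¬ (Phi V).Free 1 := fun h => by have := free_Phi hfr h; omega
  have hfn : ∀ x, V.neg.Free x → x = 2 ∨ x = 3 ∨ x = 4 := fun x hx => by
    simp only [Fm.neg, Fm.Free, or_false] at hx
    exact hfr x hx
  have key : ∀ x, Fm.Sat D V.neg (upd (upd (upd v 2 (q.nm (code Γ))) 3 (q.nm k)) 4 (q.nm x)) := by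
    intro x
    obtain ⟨m, hm⟩ := hV.neg (code Γ) k x (h x)
    have h1 : ∀ ψ, ψ = inst 2 (code Γ) (inst 3 k (inst 4 x V.neg)) → Fm.Sat D ψ v := by
      rintro ψ rfl
      exact sat_proves sat_robinson hm v
    have h2 := h1 _ rfl
    rwa [sat_inst3 q hfn] at h2
  have h3 : Fm.Sat D (inst 2 (code Γ) (inst 3 k (Phi V))) v := by
    rw [sat_inst q (by omega) (fun h => (free_inst h).1 rfl)
      (fun h => f1 (free_inst h).2.2), sat_inst q (by omega) f0 f1]
    simp only [Phi, Fm.sat_all, Fm.sat_imp]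
    intro a ha
    rw [Fm.sat_neg, Fm.sat_succ, upd_same] at ha
    rcases a with x | p
    · have := key x
      rw [hq x] at this
      exact this
    · exact absurd rfl ha
  rw [hφ]
  exact h3

/-- a state -/
theorem ok_zero (m : ℕ) : Ok m ⟨fun _ => .inl 0, fun _ _ => 0⟩ where
  norm _ _ _ _ _ := rfl
  refl _ _ := rfl
  symm _ _ _ _ := rfl
  le _ _ _ _ := Nat.zero_le _
  val _ _ _ _ _ _ _ := rfl
  cong _ _ _ _ _ _ _ _ _ := rfl
  tri _ _ _ _ _ _ _ _ := rfl

/-- The theory `T(Γ)` is consistent for `Γ = Ax P`. -/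
theorem consT (hS : SoundS) (hA : AxS2) (hB : BF) {V P : Fml} (hV : Num RefRel V)
    (hP : Num (TRel V) P) : ∀ y, ¬ ProvesT V (Ax P) y Fm.bot := by
  intro y
  induction y using Nat.strong_induction_on with
  | _ y ih =>
    intro hy
    rw [provesT_iff] at hy
    obtain ⟨π, h1, h2⟩ := hy
    have hax := hA P hP.arith hP.free y (fun y' hy' => by
      refine hP.neg _ _ _ ?_
      rintro ⟨Γ, φ, e1, e2, h3⟩
      have e3 : φ = Fm.bot := by simpa using (code_inj e2).symm
      rw [← code_inj e1, e3] at h3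
      exact ih y' hy' h3)
    have hvl : ∀ φ ∈ Fm.bot :: π, Vlt y φ := fun φ hφ =>
      by
        have h3 : sz φ ≤ y := (str_le_strs hφ).trans h2
        exact Vlt.mono h3 (vlt_sz φ)
    have hno : ∀ k ≤ y, ∀ x, ¬ RefRel (code (Ax P)) k x := by
      rintro k hk x ⟨Γ, π', e1, h3, h4, -⟩
      rw [← code_inj e1] at h3
      have h5 := hS y (Ax P) (Fm.bot :: π') h3 (fun φ hφ => Vlt.mono hk (h4 φ hφ)) hax Fm.bot
        (List.mem_cons_self ..)
      exact h5 _ (ok_zero y)
    have h6 := hS y _ (Fm.bot :: π) h1 hvl (fun φ hφ hφv => by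
      rcases List.mem_append.1 hφ with hφ | hφ
      · obtain ⟨k, hk, rfl⟩ := List.mem_map.1 hφ
        have hk' := List.mem_range.1 hk
        have e : ∀ φ, φ = conV V (Ax P) k → Vlt y φ → Arith φ → φ.Closed → Tr1 y φ :=
          fun φ h1 h2 h3 h4 => (hB y φ h3 h4 h2).2
            fun v => sat_conV hV (Ax P) k (hno k hk'.le) v φ h1
        have e1 : Arith (conV V (Ax P) k) := arith_conV hV.arith _ _
        have e2 : (conV V (Ax P) k).Closed := closed_conV hV.free _ _
        generalize hφe : conV V (Ax P) k = φ at hφv e1 e2 ⊢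
        exact e φ hφe.symm hφv e1 e2
      · exact hax φ hφ hφv) Fm.bot (List.mem_cons_self ..)
    exact h6 _ (ok_zero y)

end Pool.Agent.T9h6.BC
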