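import Pool.Agent.TH636.BC.PM

/-!
# Consistency for proofs with few variables: definitions
-/

set_option autoImplicit false

namespace Pool.Agent.T9h6.BC

open Pool.Agent.TH672 (Fm)
open Pool.Agent.TH636.BC

/-- `c` is the code of a list `Γ` of formulas, and `⊥` has a proof from `Γ` of length at most `x`
in which only the variables `0`, ..., `k - 1` occur (free or bound). -/
def RefRel (c k x : ℕ) : Prop :=
  ∃ Γ π : List Fml, c = code Γ ∧ IsProof Γ (Fm.bot :: π) ∧ (∀ φ ∈ Fm.bot :: π, Vlt k φ) ∧
    (strs (Fm.bot :: π)).length ≤ x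

/-- The arithmetical formula `P` with the free variables `2`, `3`, `4` numerates the relation `R`
and its negation in Robinson arithmetic. -/
structure Num (R : ℕ → ℕ → ℕ → Prop) (P : Fml) : Prop where
  arith : Arith P
  free : ∀ x, P.Free x → x = 2 ∨ x = 3 ∨ x = 4
  pos : ∀ a b c, R a b c → ∃ m, Proves robinson m (inst 2 a (inst 3 b (inst 4 c P)))
  neg : ∀ a b c, ¬ R a b c → ∃ m, Proves robinson m (inst 2 a (inst 3 b (inst 4 c P.neg)))

/-- The sentence `Con_Γ^(k)`, where the formula `V` numerates `RefRel`: for all numbers `x` with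
`x ≠ x + 1` there is no proof of `⊥` from `Γ` of length at most `x` in which only the variables
`0`, ..., `k - 1` occur. -/
def conV (V : Fml) (Γ : List Fml) (k : ℕ) : Fml :=
  inst 2 (code Γ) (inst 3 k (.all 4 (.imp (.neg (.succ 4 4)) (.neg V))))

/-- `T(Γ) ⊢^y φ`, where `T(Γ)` is the theory with the axioms `Γ` and `Con_Γ^(k)`, `k = 0, 1, ...`:
the formula `φ` has a proof of length at most `y` from finitely many of these axioms. -/
def ProvesT (V : Fml) (Γ : List Fml) (y : ℕ) (φ : Fml) : Prop :=
  ∃ K, Proves ((List.range K).map (conV V Γ) ++ Γ) y φ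

/-- `c` is the code of a list `Γ` of formulas, `d` is the code of a formula `φ`, and
`T(Γ) ⊢^y φ`. -/
def TRel (V : Fml) (c y d : ℕ) : Prop :=
  ∃ (Γ : List Fml) (φ : Fml), c = code Γ ∧ d = code [φ] ∧ ProvesT V Γ y φ

end Pool.Agent.T9h6.BC
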