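import Pool.Agent.T9h6.BC.Tpl
import Pool.Agent.TH197.J1545a

/-!
# The models of the axioms
-/

set_option autoImplicit false

namespace Pool.Agent.T9h6.BC

open Pool.Agent.TH672 (Fm Str upd varStr num digits LogK ReplK Sw Pv)
open Pool.Agent.TH672.Form (ren)
open Pool.Agent.TH636.BC
open Pool.Agent.TH838.J1549 (sat_cong sat_inst free_inst Q exists_Q)
open Pool.Agent.TH197.J1545 (num_snoc num_app digits_zero digits_odd digits_even digits_num strs_Ax)

/-- the strings -/
def Hs (x : ℕ) : List Bool := hd ++ (List.replicate x bs).flatten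

theorem Hs_succ (x : ℕ) : Hs (x + 1) = Hs x ++ bs := by
  simp [Hs, List.replicate_succ', List.append_assoc]

/-- The semantics of the axioms `TE` in a model of Robinson arithmetic. -/
structure TES (S : Str ℕ) (q : Q S) : Prop where
  e0 : S.op 4 (q.nm 0) (q.nm (num hd)) (q.nm (num hd)) (q.nm (num hd))
  e1 : ∀ x w, S.op 4 x w w w →
    S.op 4 (q.s x) (q.a (q.m (q.nm (2 ^ bs.length)) w) (q.nm (num bs)))
      (q.a (q.m (q.nm (2 ^ bs.length)) w) (q.nm (num bs)))
      (q.a (q.m (q.nm (2 ^ bs.length)) w) (q.nm (num bs)))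
  e2 : ∀ x w, S.op 4 x w w w →
    S.op 5 x (q.nm 0) (q.a (q.m (q.nm (2 ^ tl.length)) w) (q.nm (num tl)))
      (q.a (q.m (q.nm (2 ^ tl.length)) w) (q.nm (num tl)))
  e3 : ∀ x z w, S.op 5 x z w w → S.op 5 x (q.s (q.a z z)) (q.s (q.a w w)) (q.s (q.a w w))
  e4 : ∀ x z w, S.op 5 x z w w →
    S.op 5 x (q.s (q.s (q.a z z))) (q.s (q.s (q.a w w))) (q.s (q.s (q.a w w)))

theorem sat_appn {S : Str ℕ} (q : Q S) (σ : List Bool) (v : ℕ → S.M) (ψ : Fml)
    (hψ : ψ = Ef 19 27 ∨ ψ = Cf 15 19 27) :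
    Fm.Sat S (appn σ ψ) v ↔ Fm.Sat S ψ (upd v 27
      (q.a (q.m (q.nm (2 ^ σ.length)) (v 17)) (q.nm (num σ)))) := by
  have hf : ∀ y, ψ.Free y → y = 15 ∨ y = 19 ∨ y = 27 := by
    rintro y hy
    rcases hψ with rfl | rfl <;> simp only [Ef, Cf, Fm.Free] at hy <;> omega
  have hf0 : ¬ ψ.Free 0 := fun h => by have := hf 0 h; omega
  have hf1 : ¬ ψ.Free 1 := fun h => by have := hf 1 h; omega
  unfold appn
  rw [sat_inst q (by omega), sat_inst q (by omega)]
  · have u : ∀ (w : ℕ → S.M) (x : ℕ) (a : S.M) (y : ℕ), upd w x a y = if y = x then a else w y :=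
      fun _ _ _ _ => rfl
    simp only [Fm.sat_all, Fm.sat_imp, Fm.sat_mul, Fm.sat_add, q.mul_iff, q.add_iff]
    simp only [u]
    norm_num
    refine sat_cong fun y hy => ?_
    have := hf y hy
    simp only [u]
    split_ifs <;> first | rfl | omega
  · simp only [Fm.Free]
    tauto
  · simp only [Fm.Free]
    tauto
  · intro h
    exact (free_inst h).1 rfl
  · intro h
    have := (free_inst h).2.2
    simp only [Fm.Free] at this
    tauto

theorem tes_of {S : Str ℕ} (q : Q S) (v : ℕ → S.M) (h : ∀ ψ ∈ TE, Fm.Sat S ψ v) :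
    TES S q := by
  have u : ∀ (w : ℕ → S.M) (x : ℕ) (a : S.M) (y : ℕ), upd w x a y = if y = x then a else w y :=
    fun _ _ _ _ => rfl
  have i1 : ∀ v : ℕ → S.M, Fm.Sat S (inst 17 (num hd) (Ef 15 17)) v ↔
      Fm.Sat S (Ef 15 17) (upd v 17 (q.nm (num hd))) := fun v =>
    sat_inst q (by omega) (by simp [Ef, Fm.Free]) (by simp [Ef, Fm.Free]) _ _
  have i2 := fun v => sat_appn q bs v (Ef 19 27) (.inl rfl)
  have i3 := fun v => sat_appn q tl v (Cf 15 19 27) (.inr rfl)
  generalize hF1 : inst 17 (num hd) (Ef 15 17) = F1 at i1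
  generalize hF2 : appn bs (Ef 19 27) = F2 at i2
  generalize hF3 : appn tl (Cf 15 19 27) = F3 at i3
  simp only [TE, hF1, hF2, hF3, List.mem_cons, List.not_mem_nil, or_false, forall_eq_or_imp,
    forall_eq, Fm.sat_all, Fm.sat_imp, Fm.sat_zero, Fm.sat_succ, Fm.sat_add, q.zero_iff,
    q.succ_iff, q.add_iff, i1, i2, i3] at h
  obtain ⟨h1, h2, h3, h4, h5⟩ := h
  have nm0 : q.nm 0 = q.o := rfl
  have g1 : q.nm 0 = q.o → S.op 4 (q.nm 0) (q.nm (num hd)) (q.nm (num hd)) (q.nm (num hd)) := by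
    intro nm0
    rw [nm0]
    generalize q.nm (num hd) = A at *
    simpa [Ef, u] using h1
  refine ⟨g1 nm0, ?_, ?_, ?_, ?_⟩
  · intro x w hw
    generalize q.nm (2 ^ bs.length) = A at *
    generalize q.nm (num bs) = B at *
    simpa [Ef, u, hw] using h2 x w
  · intro x w hw
    rw [nm0]
    generalize q.nm (2 ^ tl.length) = A at *
    generalize q.nm (num tl) = B at *
    simpa [Ef, Cf, u, hw] using h3 x w
  · intro x z w hw
    simpa [Cf, u, hw] using h4 x z w
  · intro x z w hw
    simpa [Cf, u, hw] using h5 x z w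

theorem TES.ef {S : Str ℕ} {q : Q S} (h : TES S q) (x : ℕ) :
    S.op 4 (q.nm x) (q.nm (num (Hs x))) (q.nm (num (Hs x))) (q.nm (num (Hs x))) := by
  induction x with
  | zero => simpa [Hs] using h.e0
  | succ x ih =>
    have := h.e1 _ _ ih
    rw [q.nm_mul, q.nm_add, ← num_app, ← Hs_succ] at this
    exact this

theorem TES.cf {S : Str ℕ} {q : Q S} (h : TES S q) (x z : ℕ) :
    S.op 5 (q.nm x) (q.nm z) (q.nm (num (Hs x ++ tl ++ digits z)))
      (q.nm (num (Hs x ++ tl ++ digits z))) := by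
  induction z using Nat.strong_induction_on with
  | _ z ih =>
    rcases Nat.eq_zero_or_pos z with rfl | hz
    · have := h.e2 _ _ (h.ef x)
      rw [q.nm_mul, q.nm_add, ← num_app] at this
      rw [digits_zero, List.append_nil]
      exact this
    · rcases Nat.even_or_odd' z with ⟨y, rfl | rfl⟩
      · obtain ⟨y, rfl⟩ : ∃ t, y = t + 1 := ⟨y - 1, by omega⟩
        have := h.e4 _ _ _ (ih y (by omega))
        rw [q.nm_add, q.nm_add] at this
        rw [show 2 * (y + 1) = 2 * y + 2 by ring, digits_even, ← List.append_assoc, num_snoc]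
        simp only [if_true]
        have e1 : q.s (q.s (q.nm (y + y))) = q.nm (2 * y + 2) := by
          rw [show 2 * y + 2 = y + y + 1 + 1 by ring]; rfl
        have e2 : ∀ w, q.s (q.s (q.nm (w + w))) = q.nm (2 * w + 2) := fun w => by
          rw [show 2 * w + 2 = w + w + 1 + 1 by ring]; rfl
        rw [e1, e2] at this
        exact this
      · have := h.e3 _ _ _ (ih y (by omega))
        rw [q.nm_add, q.nm_add] at this
        rw [digits_odd, ← List.append_assoc, num_snoc]
        simp only [Bool.false_eq_true, if_false]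
        have e2 : ∀ w, q.s (q.nm (w + w)) = q.nm (2 * w + 1) := fun w => by
          rw [show 2 * w + 1 = w + w + 1 by ring]; rfl
        rw [e2, e2] at this
        exact this

end Pool.Agent.T9h6.BC
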