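import Pool.Agent.T9h6.BC.End

/-!
# The end of the derivation
-/

set_option autoImplicit false

namespace Pool.Agent.T9h6.BC

open Pool.Agent.TH672 (Fm Str upd varStr num digits LogK ReplK Sw Pv)
open Pool.Agent.TH672.Form (ren)
open Pool.Agent.TH636.BC
open Pool.Agent.TH838.J1549 (sat_cong sat_inst free_inst Q exists_Q closed_robinson)
open Pool.Agent.TH197.J1545 (num_snoc num_app digits_zero digits_odd digits_even digits_num strs_Ax)

theorem closed_TE : ∀ ψ ∈ TE, ψ.Closed := by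
  have e1 : ∀ {x}, (inst 17 (num hd) (Ef 15 17)).Free x → x = 15 := by
    intro x hx
    have := free_inst hx
    simp only [Ef, Fm.Free] at this
    omega
  have ea : ∀ {σ : List Bool} {ψ : Fml} {x : ℕ}, (ψ = Ef 19 27 ∨ ψ = Cf 15 19 27) →
      (appn σ ψ).Free x → x = 17 ∨ x = 15 ∨ x = 19 := by
    intro σ ψ x hψ hx
    have h1 := free_inst hx
    have h2 := free_inst h1.2.2
    rcases hψ with rfl | rfl <;> simp only [Ef, Cf, Fm.Free] at h2 <;> omega
  have e2 : ∀ {x}, (appn bs (Ef 19 27)).Free x → x = 17 ∨ x = 15 ∨ x = 19 := ea (.inl rfl)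
  have e3 : ∀ {x}, (appn tl (Cf 15 19 27)).Free x → x = 17 ∨ x = 15 ∨ x = 19 := ea (.inr rfl)
  have e2' : ∀ {x}, (appn bs (Ef 19 27)).Free x → x ≠ 15 → x ≠ 17 → x ≠ 19 → False :=
    fun h _ _ _ => by have := e2 h; omega
  simp only [TE, List.mem_cons, List.not_mem_nil, or_false, forall_eq_or_imp, forall_eq,
    Fm.Closed, Fm.Free]
  refine ⟨?_, ?_, ?_, ?_, ?_⟩
  · rintro x ⟨h1, h2 | h2⟩
    · exact h1 h2
    · exact h1 (e1 h2)
  · rintro x ⟨h1, h2, h3 | ⟨h4, h5 | h5⟩⟩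
    · simp only [Ef, Fm.Free] at h3; omega
    · omega
    · have := e2 h5
      have h6 : (appn bs (Ef 19 27)).Free x → x ≠ 15 := by
        intro h
        have h1 := free_inst h
        have h2 := free_inst h1.2.2
        simp only [Ef, Fm.Free] at h2
        omega
      omega
  · rintro x ⟨h1, h2, h3 | ⟨h4, h5 | h5⟩⟩
    · simp only [Ef, Fm.Free] at h3; omega
    · omega
    · have := e3 h5
      omega
  · simp only [Cf, Fm.Free]
    intro x
    omega
  · simp only [Cf, Fm.Free]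
    intro x
    omega

/-- The free variables of the formula `P` are `2`, `3`, `4`. -/
def Fr (P : Fml) : Prop := ∀ x, P.Free x → x = 2 ∨ x = 3 ∨ x = 4

theorem Fr.neg {P : Fml} (h : Fr P) : Fr P.neg := fun x hx => by
  simp only [Fm.neg, Fm.Free, or_false] at hx
  exact h x hx

theorem closed_sg {P : Fml} (h : Fr P) : (sg P).Closed := by
  intro x hx
  obtain ⟨h0, h29, hx⟩ := free_inst hx
  have e : (inst 4 (code [Fm.bot]) P.neg).Free x → x = 2 ∨ x = 3 := fun hf => by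
    obtain ⟨h1, h2, h3⟩ := free_inst hf
    have := h.neg x h3
    omega
  simp only [sgf, Cf, nat, col, lt, Fm.neg, Fm.Free, or_false] at hx
  obtain ⟨h1, h2 | ⟨h3, h4, h5, h6, h7 | h7 | h7 | h7⟩⟩ := hx
  · omega
  · omega
  · omega
  · omega
  · have := e h7
    omega

theorem closed_Ax {P : Fml} (h : Fr P) : ∀ ψ ∈ Ax P, ψ.Closed := by
  intro ψ hψ
  simp only [Ax, TB, List.mem_cons, List.mem_append] at hψ
  rcases hψ with rfl | (hψ | hψ) | hψ
  · exact closed_sg h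
  · exact closed_robinson ψ hψ
  · exact closed_T0 ψ hψ
  · exact closed_TE ψ hψ

/-- The consistency statement in models of the axioms. -/
theorem sem_Ax {P : Fml} (hP : Fr P) {S : Str ℕ} (hS : ∀ ψ ∈ Ax P, ∀ v : ℕ → S.M, Fm.Sat S ψ v)
    (v : ℕ → S.M) (h1 : S.op 0 (v 3) (v 3) (v 3) (v 3))
    (h2 : ∃ x y c, S.op 3 x y c c ∧ ¬ S.op 1 c (v 3) (v 3) (v 3)) :
    ∀ φ, φ = con P (Ax P) → Fm.Sat S φ v := by
  rintro φ0 hφ0
  rw [hφ0]
  obtain ⟨q⟩ := exists_Q v fun ψ hψ => hS ψ (by simp [Ax, TB, hψ]) v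
  have hT := tes_of q v fun ψ hψ => hS ψ (by simp [Ax, TB, hψ]) v
  have hcf := hT.cf (tn P) (tn P)
  obtain ⟨ψ0, hψ0⟩ : ∃ ψ, ψ = sg P := ⟨_, rfl⟩
  have hsg := hS ψ0 (by simp [Ax, hψ0]) v
  have u : ∀ (w : ℕ → S.M) (x : ℕ) (a : S.M) (y : ℕ), upd w x a y = if y = x then a else w y :=
    fun _ _ _ _ => rfl
  have hfi : ∀ x, (inst 4 (code [Fm.bot]) P.neg).Free x → x = 2 ∨ x = 3 := fun x hf => by
    obtain ⟨h1, h2, h3⟩ := free_inst hf
    have := hP.neg x h3
    omega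
  have hfs : ∀ x, (sgf P).Free x → x = 29 := fun x hx => by
    have e := hfi x
    simp only [sgf, Cf, nat, col, lt, Fm.neg, Fm.Free, or_false] at hx
    obtain ⟨h1, h2 | ⟨h3, h4, h5, h6, h7 | h7 | h7 | h7⟩⟩ := hx
    · omega
    · omega
    · omega
    · omega
    · have := e h7
      omega
  rw [hψ0, sg, sat_inst q (by omega) (fun h => by have := hfs 0 h; omega)
    (fun h => by have := hfs 1 h; omega)] at hsg
  rw [con, sat_inst q (by omega) (fun h => by have := hfi 0 h; omega)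
    (fun h => by have := hfi 1 h; omega)]
  have hcode : q.nm (num (Hs (tn P) ++ tl ++ digits (tn P))) = q.nm (code (Ax P)) := by
    unfold code
    rw [strs_Ax]
    rfl
  rw [hcode] at hcf
  obtain ⟨x, y, c, e1, e2⟩ := h2
  generalize hφ : inst 4 (code [Fm.bot]) P.neg = φ at *
  generalize q.nm (code (Ax P)) = W at *
  generalize q.nm (tn P) = K at *
  simp only [sgf, hφ, Fm.sat_all, Fm.sat_imp, Cf, nat, col, lt, Fm.sat_op, Fm.sat_neg] at hsg
  have := hsg W (by simpa [u] using hcf) (v 3) x y c (by simpa [u] using h1)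
    (by simpa [u] using e1) (by simpa [u] using e2)
  refine (sat_cong fun z hz => ?_).1 this
  rcases hfi z hz with rfl | rfl <;> simp [u]

/-- The formula of the end of the derivation is provable. -/
theorem pv_end {P : Fml} (hP : Fr P) : Pv (fun ψ => ψ ∈ Ax P)
    (.imp (Jf B0 0) (.all 3 (.imp (.eq 3 0) (con P (Ax P))))) := by
  refine pv_of_valid (closed_Ax hP) fun S hS v => ?_
  have key : ∀ w : ℕ → S.M, S.op 0 (w 3) (w 3) (w 3) (w 3) →
    (∃ x y c, S.op 3 x y c c ∧ ¬ S.op 1 c (w 3) (w 3) (w 3)) →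
      ∀ φ, φ = con P (Ax P) → Fm.Sat S φ w := fun w => sem_Ax hP hS w
  generalize hφ : con P (Ax P) = φ at key ⊢
  simp only [Fm.sat_imp, Fm.sat_all, Fm.sat_eq]
  intro hJ a ha
  have h := t0s_of (v := v) fun ψ hψ => hS ψ (by simp [Ax, TB, hψ]) v
  rw [sat_Jf (B := fun a => S.op 6 a a a a) (.inl rfl) fun a _ _ w _ => Iff.rfl] at hJ
  have ha' : a = v 0 := by simpa [upd] using ha
  obtain ⟨h1, h2⟩ := js_end h hJ
  refine key _ ?_ ?_ φ rfl
  · rw [Pool.Agent.TH672.upd_same, ha']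
    exact h1
  · rw [Pool.Agent.TH672.upd_same, ha']
    exact h2

end Pool.Agent.T9h6.BC
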