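import Pool.Agent.TH955.J1547
import Pool.Agent.TH554.J1548
import Pool.Agent.TH636.BC.PM

/-!
# Strings and variables of Gödel numbers
-/

set_option autoImplicit false

namespace Pool.Agent.T9h6.BC

open Pool.Agent.TH672 (Fm varStr num digits LogK)
open Pool.Agent.TH636.BC
open Pool.Agent.TH955.J1547

/-! ### strings -/

theorem varStr_eq (x : ℕ) : varStr x = Nat.rec [false] (fun _ l => true :: l) x := by
  induction x with
  | zero => rfl
  | succ x ih =>
    have : varStr (x + 1) = true :: varStr x := by simp [varStr, List.replicate_succ]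
    rw [this, ih]

theorem p_vs {β : Type} [Primcodable β] {f : β → ℕ} (hf : Primrec f) :
    Primrec fun x => varStr (f x) := by
  have h : Primrec varStr := by
    have e : varStr = fun x => Nat.rec [false] (fun _ l => true :: l) x := funext varStr_eq
    rw [e]
    exact Primrec.nat_rec₁ [false] (Primrec.list_cons.comp (Primrec.const true) Primrec.snd)
  exact h.comp hf

theorem p_app {β : Type} [Primcodable β] {f g : β → List Bool} (hf : Primrec f)
    (hg : Primrec g) : Primrec fun x => f x ++ g x := Primrec.list_append.comp hf hg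

/-- step for the string -/
def sts (_ : ℕ) (n : ℕ) (b1 b2 : List Bool) : List Bool :=
  cond (eb (tg n) 1) [false, false, false, false]
  (cond (eb (tg n) 2) ([false, false, false, true] ++ varStr (c1 n) ++ varStr (c2 n))
  (cond (eb (tg n) 3) ([false, false, true, false] ++ varStr (ar n))
  (cond (eb (tg n) 4) ([false, false, true, true] ++ varStr (c1 n) ++ varStr (c2 n))
  (cond (eb (tg n) 5) ([false, true, false, false] ++ varStr (c1 n) ++ varStr (u1 (c2 n)) ++
    varStr (u2 (c2 n)))
  (cond (eb (tg n) 6) ([false, true, false, true] ++ varStr (c1 n) ++ varStr (u1 (c2 n)) ++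
    varStr (u2 (c2 n)))
  (cond (eb (tg n) 7) ([false, true, true, false] ++ varStr (c1 n) ++ varStr (u1 (c2 n)) ++
    varStr (u1 (u2 (c2 n))) ++ varStr (u1 (u2 (u2 (c2 n)))) ++ varStr (u2 (u2 (u2 (c2 n)))))
  (cond (eb (tg n) 8) ([false, true, true, true] ++ b1 ++ b2)
  ([true, false, false, false] ++ varStr (c1 n) ++ b2))))))))

/-- the string of a Gödel number -/
def st (n : ℕ) : List Bool := fold sts 0 n

theorem st_primrec : Primrec st := by
  have h := fold_primrec sts (by
    unfold sts
    repeat' (with_reducible (first | assumption | exact p_var | apply p_app | apply p_vs | apply p_cond | apply p_eb | apply p_tg | apply p_ar | apply p_c1 | apply p_c2 | apply p_u1 | apply p_u2 | apply p_fst | apply p_snd | exact Primrec.const _)))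
  exact h.comp (Primrec.const 0) Primrec.id

theorem st_gn : ∀ φ : Fml, st (gn φ) = str φ := by
  intro φ
  induction φ with
  | bot => unfold st gn; rw [fold]; simp [sts, str]
  | eq x y => unfold st gn; rw [fold]; simp [sts, str, eb]
  | zero x => unfold st gn; rw [fold]; simp [sts, str, eb]
  | succ x y => unfold st gn; rw [fold]; simp [sts, str, eb]
  | add x y z => unfold st gn; rw [fold]; simp [sts, str, eb]
  | mul x y z => unfold st gn; rw [fold]; simp [sts, str, eb]
  | op i a b c d => unfold st gn; rw [fold]; simp [sts, str, eb]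
  | imp φ ψ ih1 ih2 =>
    unfold st at *
    rw [gn, fold_pair _ _ (by norm_num), ih1, ih2]
    simp [sts, str, eb]
  | all x φ ih =>
    unfold st at *
    rw [gn, fold_pair _ _ (by norm_num), ih]
    simp [sts, str, eb]

/-! ### the bound -/

/-- bound for pairs -/
def sq (x : ℕ) : ℕ := (x + 1) * (x + 1)

theorem le_sq (x : ℕ) : x ≤ sq x := by unfold sq; nlinarith

theorem sq_mono : Monotone sq := fun a b h => by unfold sq; gcongr

theorem pair_le_sq {a b x : ℕ} (ha : a ≤ x) (hb : b ≤ x) : Nat.pair a b ≤ sq x := by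
  unfold Nat.pair sq
  split_ifs <;> nlinarith

/-- the bound -/
def Bd (n : ℕ) : ℕ := sq^[5 * n] (n + 9)

theorem iter_mono {a b m n : ℕ} (h : a ≤ b) (hmn : m ≤ n) : sq^[m] a ≤ sq^[n] b := by
  obtain ⟨t, rfl⟩ := Nat.exists_eq_add_of_le hmn
  rw [add_comm, Function.iterate_add_apply]
  have h1 : sq^[m] a ≤ sq^[m] b := sq_mono.iterate m h
  refine h1.trans ?_
  have : ∀ t x, x ≤ sq^[t] x := by
    intro t
    induction t with
    | zero => exact fun x => le_rfl
    | succ t ih =>
      intro x
      rw [Function.iterate_succ_apply']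
      exact (ih x).trans (le_sq _)
  exact this t _

theorem Bd_mono : Monotone Bd := fun a b h => iter_mono (by omega) (by omega)

theorem Bd_primrec : Primrec Bd := by
  unfold Bd
  refine Primrec.nat_iterate (f := fun n => 5 * n) (g := fun n => n + 9) (h := fun _ x => sq x) ?_
    ?_ ?_
  · exact Primrec.nat_mul.comp (Primrec.const 5) Primrec.id
  · exact Primrec.nat_add.comp Primrec.id (Primrec.const 9)
  · unfold sq
    exact Primrec.nat_mul.comp (Primrec.succ.comp Primrec.snd) (Primrec.succ.comp Primrec.snd)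

theorem gn_le (φ : Fml) : gn φ ≤ Bd (str φ).length := by
  have hlv : ∀ x, (varStr x).length = x + 1 := fun x => by simp [varStr]
  have key : ∀ (m n : ℕ), 5 ≤ m → m ≤ 5 * n → sq^[m] (n + 9) ≤ Bd n := fun m n _ h =>
    iter_mono le_rfl h
  have it : ∀ (m : ℕ) (x a b : ℕ), a ≤ sq^[m] x → b ≤ sq^[m] x → Nat.pair a b ≤ sq^[m + 1] x := by
    intro m x a b ha hb
    rw [Function.iterate_succ_apply']
    exact pair_le_sq ha hb
  have up : ∀ (m x a : ℕ), a ≤ x → a ≤ sq^[m] x := fun m x a h =>
    iter_mono (m := 0) h (Nat.zero_le m)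
  induction φ with
  | bot =>
    show Nat.pair 1 0 ≤ Bd 4
    exact (it 0 (4 + 9) 1 0 (by simp) (by simp)).trans (iter_mono le_rfl (by omega))
  | eq x y =>
    have hl : (str (.eq x y)).length = 4 + (x + 1) + (y + 1) := by
      simp only [str, List.length_append, hlv]; rfl
    rw [hl]
    exact (it 1 (4 + (x + 1) + (y + 1) + 9) 2 _ (up _ _ _ (by omega))
      (it 0 _ _ _ (by simp; omega) (by simp; omega))).trans (iter_mono le_rfl (by omega))
  | zero x =>
    have hl : (str (.zero x)).length = 4 + (x + 1) := by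
      simp only [str, List.length_append, hlv]; rfl
    rw [hl]
    exact (it 0 (4 + (x + 1) + 9) 3 _ (up _ _ _ (by omega)) (up _ _ _ (by omega))).trans
      (iter_mono le_rfl (by omega))
  | succ x y =>
    have hl : (str (.succ x y)).length = 4 + (x + 1) + (y + 1) := by
      simp only [str, List.length_append, hlv]; rfl
    rw [hl]
    exact (it 1 (4 + (x + 1) + (y + 1) + 9) 4 _ (up _ _ _ (by omega))
      (it 0 _ _ _ (by simp; omega) (by simp; omega))).trans (iter_mono le_rfl (by omega))
  | add x y z =>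
    have hl : (str (.add x y z)).length = 4 + (x + 1) + (y + 1) + (z + 1) := by
      simp only [str, List.length_append, hlv]; rfl
    rw [hl]
    exact (it 2 (4 + (x + 1) + (y + 1) + (z + 1) + 9) 5 _ (up _ _ _ (by omega))
      (it 1 _ _ _ (up _ _ _ (by omega)) (it 0 _ _ _ (by simp; omega) (by simp; omega)))).trans
      (iter_mono le_rfl (by omega))
  | mul x y z =>
    have hl : (str (.mul x y z)).length = 4 + (x + 1) + (y + 1) + (z + 1) := by
      simp only [str, List.length_append, hlv]; rfl
    rw [hl]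
    exact (it 2 (4 + (x + 1) + (y + 1) + (z + 1) + 9) 6 _ (up _ _ _ (by omega))
      (it 1 _ _ _ (up _ _ _ (by omega)) (it 0 _ _ _ (by simp; omega) (by simp; omega)))).trans
      (iter_mono le_rfl (by omega))
  | op i a b c d =>
    have hl : (str (.op i a b c d)).length =
        4 + (i + 1) + (a + 1) + (b + 1) + (c + 1) + (d + 1) := by
      simp only [str, List.length_append, hlv]; rfl
    rw [hl]
    exact (it 4 (4 + (i + 1) + (a + 1) + (b + 1) + (c + 1) + (d + 1) + 9) 7 _
      (up _ _ _ (by omega)) (it 3 _ _ _ (up _ _ _ (by omega)) (it 2 _ _ _ (up _ _ _ (by omega))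
        (it 1 _ _ _ (up _ _ _ (by omega)) (it 0 _ _ _ (by simp; omega) (by simp; omega)))))).trans
      (iter_mono le_rfl (by omega))
  | imp φ ψ ih1 ih2 =>
    have hl : (str (.imp φ ψ)).length = 4 + (str φ).length + (str ψ).length := by
      simp only [str, List.length_append]; rfl
    rw [hl]
    obtain ⟨n, hn⟩ : ∃ n, n = (str φ).length + (str ψ).length := ⟨_, rfl⟩
    have e1 : gn φ ≤ sq^[5 * n] (n + 9) := ih1.trans (iter_mono (by omega) (by omega))
    have e2 : gn ψ ≤ sq^[5 * n] (n + 9) := ih2.trans (iter_mono (by omega) (by omega))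
    exact (it (5 * n + 1) (n + 9) 8 _ (up _ _ _ (by omega)) (it (5 * n) _ _ _ e1 e2)).trans
      (iter_mono (by omega) (by omega))
  | all x φ ih =>
    have hl : (str (.all x φ)).length = 4 + (x + 1) + (str φ).length := by
      simp only [str, List.length_append, hlv]; rfl
    rw [hl]
    obtain ⟨n, hn⟩ : ∃ n, n = x + 1 + (str φ).length := ⟨_, rfl⟩
    have e1 : gn φ ≤ sq^[5 * n] (n + 9) := ih.trans (iter_mono (by omega) (by omega))
    exact (it (5 * n + 1) (n + 9) 9 _ (up _ _ _ (by omega)) (it (5 * n) _ _ _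
      (up _ _ _ (by omega)) e1)).trans (iter_mono (by omega) (by omega))

theorem gnStr : GnStr :=
  ⟨⟨isF, isF_primrec, isF_iff⟩, ⟨st, st_primrec, st_gn⟩, ⟨Bd, Bd_primrec, Bd_mono, gn_le⟩⟩

/-! ### variables -/

/-- comparison -/
def lb (a b : ℕ) : Bool := decide (a < b)

@[simp] theorem lb_true (a b : ℕ) : lb a b = true ↔ a < b := by simp [lb]

theorem p_lb {β : Type} [Primcodable β] {f g : β → ℕ} (hf : Primrec f) (hg : Primrec g) :
    Primrec fun x => lb (f x) (g x) := (Primrec.nat_lt.comp hf hg).decide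

/-- step for the bound of the variables -/
def vls (k : ℕ) (n : ℕ) (b1 b2 : Bool) : Bool :=
  cond (eb (tg n) 1) true
  (cond (eb (tg n) 2 || eb (tg n) 4) (lb (c1 n) k && lb (c2 n) k)
  (cond (eb (tg n) 3) (lb (ar n) k)
  (cond (eb (tg n) 5 || eb (tg n) 6) (lb (c1 n) k && (lb (u1 (c2 n)) k && lb (u2 (c2 n)) k))
  (cond (eb (tg n) 7) (lb (u1 (c2 n)) k && (lb (u1 (u2 (c2 n))) k &&
    (lb (u1 (u2 (u2 (c2 n)))) k && lb (u2 (u2 (u2 (c2 n)))) k)))
  (cond (eb (tg n) 8) (b1 && b2) (lb (c1 n) k && b2))))))

/-- all variables are below `k` -/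
def vl (k n : ℕ) : Bool := fold vls k n

theorem vl_primrec : Primrec₂ vl := fold_primrec vls (by
  unfold vls
  repeat' (with_reducible (first | assumption | exact p_var | apply p_cond | apply p_and | apply p_or | apply p_eb | apply p_lb | apply p_tg | apply p_ar | apply p_c1 | apply p_c2 | apply p_u1 | apply p_u2 | apply p_fst | apply p_snd | exact Primrec.const _)))

theorem vl_gn (k : ℕ) : ∀ φ : Fml, vl k (gn φ) = true ↔ Vlt k φ := by
  intro φ
  induction φ with
  | bot => unfold vl gn; rw [fold]; simp [vls, Vlt]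
  | eq x y => unfold vl gn; rw [fold]; simp [vls, Vlt, eb]
  | zero x => unfold vl gn; rw [fold]; simp [vls, Vlt, eb]
  | succ x y => unfold vl gn; rw [fold]; simp [vls, Vlt, eb]
  | add x y z => unfold vl gn; rw [fold]; simp [vls, Vlt, eb]
  | mul x y z => unfold vl gn; rw [fold]; simp [vls, Vlt, eb]
  | op i a b c d => unfold vl gn; rw [fold]; simp [vls, Vlt, eb]
  | imp φ ψ ih1 ih2 =>
    unfold vl at *
    rw [gn, fold_pair _ _ (by norm_num)]
    simp [vls, Vlt, eb, ih1, ih2]
  | all x φ ih =>
    unfold vl at *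
    rw [gn, fold_pair _ _ (by norm_num)]
    simp [vls, Vlt, eb, ih]

end Pool.Agent.T9h6.BC
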