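import Pool.Agent.T9h6.BC.Stp

/-!
# The induction step for derivations
-/

set_option autoImplicit false

namespace Pool.Agent.T9h6.BC

open Pool.Agent.TH672 (Fm Str upd varStr num digits LogK ReplK Sw Pv)
open Pool.Agent.TH672.Form (ren)
open Pool.Agent.TH636.BC

theorem cx_all {k x : ℕ} {φ : Fml} (hk : 1 ≤ k) (h : Cx false k φ) : Cx false k (.all x φ) := by
  obtain ⟨k, rfl⟩ := Nat.exists_eq_add_of_le' hk
  exact .all h

theorem cx_blk {k : ℕ} {W : Fml} (hk : 1 ≤ k) (h : Cx false k W) : Cx false k (blk W) :=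
  cx_all hk (.imp (.succ _ _ _ _) (cx_all hk (.imp (.eq _ _ _ _) h)))

theorem exists_step : ∃ C N1, 1 ≤ C ∧ 43 ≤ N1 ∧ ∀ (Γ : List Fml) (N0 n c k M L : ℕ) (W : Fml),
    N1 ≤ N0 → (∀ ψ ∈ T0, ψ ∈ Γ) → c < n → 12 ≤ k → Cx false k W → (∀ x, N0 ≤ x → ¬ W.Free x) →
    MU N0 n ≤ M → sz W ≤ M → Dv Γ (k + C) (C * M) L (.imp (Jf (Uf N0 (c + 1)) 0) W) →
    Dv Γ (k + C) (C * M) (L + C * (n + 1)) (.imp (Jf (Uf N0 c) 0) (blk W)) := by
  obtain ⟨CS, hCS, hS⟩ := exists_tdS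
  obtain ⟨CI, hCI, hI⟩ := exists_tdI
  obtain ⟨Ct, Nt, -, ht⟩ := transfer pv_step
  obtain ⟨Ce, Ne, -, he⟩ := transfer pv_eq
  obtain ⟨C1, hC1, r1⟩ := rule_syl2
  obtain ⟨C2, hC2, r2⟩ := rule_contra
  obtain ⟨C3, hC3, r3⟩ := rule_d8
  obtain ⟨C, hC⟩ : ∃ C, C = 200 + 40 * C1 + 40 * C2 + 40 * C3 + Ct * CS + Ce * CI + Ct + Ce + CS +
    CI := ⟨_, rfl⟩
  refine ⟨C, max (max Nt Ne) 43, by omega, le_max_right _ _,
    fun Γ N0 n c k M L W hN hT hc hk hW hfW hM hsW h => ?_⟩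
  have hNt : Nt ≤ N0 := by omega
  have hNe : Ne ≤ N0 := by omega
  have h43 : 43 ≤ N0 := by omega
  have hMU := MU_pos N0 n
  have hMU' := le_MU (N0 := N0) (n := n)
  have hM100 : 100 ≤ M := hMU.trans hM
  have hle : ∀ {a : ℕ}, a ≤ C → a * M ≤ C * M := fun h => Nat.mul_le_mul_right _ h
  have h200 : 200 * M ≤ C * M := hle (by omega)
  -- sizes
  have s11 : sz (Jf (Uf N0 (c + 1)) 1) ≤ 10 * M :=
    (sz_Jf (n := n) (by omega) (by omega)).trans (Nat.mul_le_mul_left _ hM)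
  have s10 : sz (Jf (Uf N0 (c + 1)) 0) ≤ 10 * M :=
    (sz_Jf (n := n) (by omega) (by omega)).trans (Nat.mul_le_mul_left _ hM)
  have s00 : sz (Jf (Uf N0 c) 0) ≤ 10 * M :=
    (sz_Jf (n := n) (by omega) (by omega)).trans (Nat.mul_le_mul_left _ hM)
  have b11 := (both_Jf N0 (c + 1) 1).mono hk
  have b10 := (both_Jf N0 (c + 1) 0).mono hk
  have b00 := (both_Jf N0 c 0).mono hk
  have bW : Both (k + 1) W := fun s => hW.lift
  obtain ⟨J11, hJ11⟩ : ∃ J, J = Jf (Uf N0 (c + 1)) 1 := ⟨_, rfl⟩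
  obtain ⟨J10, hJ10⟩ : ∃ J, J = Jf (Uf N0 (c + 1)) 0 := ⟨_, rfl⟩
  obtain ⟨J00, hJ00⟩ : ∃ J, J = Jf (Uf N0 c) 0 := ⟨_, rfl⟩
  have f11 : ¬ J11.Free 0 := fun hf => by
    rw [hJ11] at hf
    have := free_Jf hf
    omega
  have f00 : ¬ J00.Free 1 := fun hf => by
    rw [hJ00] at hf
    have := free_Jf hf
    omega
  -- the templates
  have D2 : Dv Γ (k + C) (C * M) ((Ce * CI) * (n + 1)) (.imp J11 (.imp (.eq 0 1) J10)) := by
    have := he (tdI N0 (c + 1)) Γ CI (CI * MU N0 n) (CI * (n + 1)) (hI Γ Ne N0 n (c + 1) hNe hc)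
      (by nlinarith) (by nlinarith) (by simp)
    rw [hJ11, hJ10]
    refine this.mono (by omega) ?_ ?_
    · rw [← mul_assoc]
      exact (Nat.mul_le_mul_left _ hM).trans (hle (by omega))
    · rw [← mul_assoc]
  have D7 : Dv Γ (k + C) (C * M) ((Ct * CS) * (n + 1)) (.imp J00 (.imp (.succ 0 1) (.neg (.all (N0 + 3 * c)
      (.all (N0 + 3 * c + 1) (.all (N0 + 3 * c + 2) (.neg J11))))))) := by
    have := ht (tdS N0 c) Γ CS (CS * MU N0 n) (CS * (n + 1)) (hS Γ Nt N0 n c hNt hc.le)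
      (by nlinarith) (by nlinarith) (fun ψ hψ => by rw [tdS_T0 N0 c ψ hψ]; exact hT ψ hψ)
    rw [hJ11, hJ00]
    refine this.mono (by omega) ?_ ?_
    · rw [← mul_assoc]
      exact (Nat.mul_le_mul_left _ hM).trans (hle (by omega))
    · rw [← mul_assoc]
  rw [← hJ11] at s11 b11
  rw [← hJ10] at s10 b10 h
  rw [← hJ00] at s00 b00
  rw [← hJ00]
  obtain ⟨V, hV⟩ : ∃ V : Fml, V = .all 0 (.imp (.eq 0 1) W) := ⟨_, rfl⟩
  have hblk : blk W = .all 1 (.imp (.succ 0 1) V) := by rw [hV]; rfl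
  have sV : sz V ≤ 2 * M := by rw [hV]; simp only [sz_all, sz_imp, sz_eq]; omega
  have cV : Cx false k V := by rw [hV]; exact cx_all (by omega) (.imp (.eq _ _ _ _) hW)
  have bV : Both (k + 1) V := fun s => cV.lift
  have fV : ∀ x, N0 ≤ x → ¬ V.Free x := fun x hx hf => by
    rw [hV] at hf
    obtain ⟨h1, (h2 | h2) | h2⟩ := hf
    · omega
    · omega
    · exact hfW x hx h2
  generalize hJX : (Fm.all (N0 + 3 * c) (.all (N0 + 3 * c + 1) (.all (N0 + 3 * c + 2)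
    (.neg J11))) : Fml) = JX at D7
  have sJX : sz JX ≤ 20 * M := by
    rw [← hJX]; simp only [sz_all, sz_neg]; omega
  have cn : Cx false k (.neg J11) := b11.neg false
  have cJX : Cx false k JX := by
    rw [← hJX]
    exact cx_all (by omega) (cx_all (by omega) (cx_all (by omega) cn))
  have bJX : Both (k + 1) JX := fun s => cJX.lift
  -- D3
  have R1 : Dv Γ (k + C) (C * M) C1 (.imp (.imp J11 (.imp (.eq 0 1) J10)) (.imp (.imp J10 W)
      (.imp J11 (.imp (.eq 0 1) W)))) := by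
    refine (r1 Γ (k + 1) (20 * M) J11 (.eq 0 1) J10 W (b11.mono (by omega)) (fun s => .eq _ _ _ _)
      (b10.mono (by omega)) bW (by omega) (by simp only [sz_eq]; omega) (by omega) (by omega)).mono
      (by omega) ?_ le_rfl
    calc C1 * (20 * M + 1) ≤ (40 * C1) * M := by nlinarith
      _ ≤ C * M := hle (by omega)
  have D3 := (R1.mp D2).mp h
  have D4 : Dv Γ (k + C) (C * M) (C1 + Ce * CI * (n + 1) + 1 + L + 1 + 3) (.imp J11 V) := by
    rw [hV]
    refine D3.dist 0 (k' := k) (by omega) (by omega) f11 (b11 true) (.imp (.eq _ _ _ _) hW) ?_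
    simp only [sz_imp, sz_eq]
    omega
  have R2 : Dv Γ (k + C) (C * M) C2 (.imp (.imp J11 V) (.imp (.neg V) (.neg J11))) := by
    refine (r2 Γ (k + 1) (20 * M) J11 V (b11.mono (by omega)) bV (by omega) (by omega)).mono
      (by omega) ?_ le_rfl
    calc C2 * (20 * M + 1) ≤ (40 * C2) * M := by nlinarith
      _ ≤ C * M := hle (by omega)
  have D5 := R2.mp D4
  have fnV : ∀ x, N0 ≤ x → ¬ (Fm.neg V).Free x := fun x hx hf => by
    rcases hf with hf | hf
    · exact fV x hx hf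
    · exact hf
  have cnV : Cx true k (.neg V) := .imp cV (.bot _ _)
  have D6 : Dv Γ (k + C) (C * M) (C2 + (C1 + Ce * CI * (n + 1) + 1 + L + 1 + 3) + 1 + 3 + 3 + 3)
      (.imp (.neg V) JX) := by
    rw [← hJX]
    have e1 := D5.dist (N0 + 3 * c + 2) (k' := k) (by omega) (by omega) (fnV _ (by omega)) cnV cn
      (by simp only [sz_neg]; omega)
    have e2 := e1.dist (N0 + 3 * c + 1) (k' := k) (by omega) (by omega) (fnV _ (by omega)) cnV
      (cx_all (by omega) cn) (by simp only [sz_neg, sz_all]; omega)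
    exact e2.dist (N0 + 3 * c) (k' := k) (by omega) (by omega) (fnV _ (by omega)) cnV
      (cx_all (by omega) (cx_all (by omega) cn)) (by simp only [sz_neg, sz_all]; omega)
  have R3 : Dv Γ (k + C) (C * M) C3 (.imp (.imp (.neg V) JX) (.imp (.imp J00 (.imp (.succ 0 1)
      (.neg JX))) (.imp J00 (.imp (.succ 0 1) V)))) := by
    refine (r3 Γ (k + 1) (20 * M) J00 (.succ 0 1) JX V (b00.mono (by omega))
      (fun s => .succ _ _ _ _) bJX bV (by omega) (by simp only [sz_succ]; omega) (by omega)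
      (by omega)).mono (by omega) ?_ le_rfl
    calc C3 * (20 * M + 1) ≤ (40 * C3) * M := by nlinarith
      _ ≤ C * M := hle (by omega)
  have D8 := (R3.mp D6).mp D7
  have D9 := D8.dist 1 (k' := k) (by omega) (by omega) f00 (b00 true) (.imp (.succ _ _ _ _) cV)
    (by simp only [sz_imp, sz_succ]; omega)
  rw [hblk]
  refine D9.mono le_rfl le_rfl ?_
  rw [hC]
  generalize Ct * CS = u
  generalize Ce * CI = w
  nlinarith [Nat.zero_le (u * n), Nat.zero_le (w * n), Nat.zero_le (C1 * n), Nat.zero_le (C2 * n),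
    Nat.zero_le (C3 * n), Nat.zero_le (Ct * n), Nat.zero_le (Ce * n), Nat.zero_le (CS * n),
    Nat.zero_le (CI * n)]

end Pool.Agent.T9h6.BC
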