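import Pool.Agent.T9h6.BC.Trf

/-!
# Valid formulas with placeholders
-/

set_option autoImplicit false

namespace Pool.Agent.T9h6.BC

open Pool.Agent.TH672 (Fm Str upd varStr num digits LogK ReplK Sw Pv)
open Pool.Agent.TH672.Form (ren)
open Pool.Agent.TH636.BC
open Pool.Agent.TH690.J100 (subst_of_not_free freeFor_of_bd completeness)
open Pool.Agent.TH838.J1549 (sat_cong)

theorem subst_self {x : ℕ} : ∀ φ : Fml, φ.subst x x = φ := by
  have hr : ∀ u, ren x x u = u := fun u => by unfold ren; split_ifs with h <;> simp [h]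
  intro φ
  induction φ with
  | all u φ ih => simp only [Fm.subst, ih, ite_self]
  | imp φ ψ ih1 ih2 => simp only [Fm.subst, ih1, ih2]
  | _ => simp only [Fm.subst, hr]

theorem freeFor_self {x : ℕ} : ∀ φ : Fml, φ.FreeFor x x := by
  intro φ
  induction φ with
  | all u φ ih =>
    by_cases e : u = x
    · exact .inl e
    · exact .inr (.inr ⟨e, ih⟩)
  | imp φ ψ ih1 ih2 => exact ⟨ih1, ih2⟩
  | _ => trivial

/-- universal closure -/
def cl (φ : Fml) : ℕ → Fml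
  | 0 => φ
  | n + 1 => .all n (cl φ n)

theorem free_cl {φ : Fml} {x : ℕ} : ∀ {n : ℕ}, (cl φ n).Free x → φ.Free x ∧ n ≤ x
  | 0, h => ⟨h, Nat.zero_le _⟩
  | n + 1, ⟨h1, h2⟩ => by
    obtain ⟨h3, h4⟩ := free_cl h2
    exact ⟨h3, by omega⟩

theorem sat_cl {S : Str ℕ} {φ : Fml} (h : ∀ v : ℕ → S.M, Fm.Sat S φ v) :
    ∀ (n : ℕ) (v : ℕ → S.M), Fm.Sat S (cl φ n) v
  | 0, v => h v
  | n + 1, _ => fun _ => sat_cl h n _

theorem pv_of_cl {T : Fml → Prop} {φ : Fml} : ∀ (n : ℕ), Pv T (cl φ n) → Pv T φ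
  | 0, h => h
  | n + 1, h => by
    have h1 : Pv T (.imp (.all n (cl φ n)) ((cl φ n).subst n n)) :=
      .log (.inst n n _ (freeFor_self _))
    rw [subst_self] at h1
    exact pv_of_cl n (.mp h1 h)

/-- The completeness theorem for formulas with free variables. -/
theorem pv_of_valid {T : List Fml} {φ : Fml} (hT : ∀ ψ ∈ T, ψ.Closed)
    (h : ∀ (S : Str ℕ), (∀ ψ ∈ T, ∀ v : ℕ → S.M, Fm.Sat S ψ v) → ∀ v : ℕ → S.M, Fm.Sat S φ v) :
    Pv (fun ψ => ψ ∈ T) φ := by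
  refine pv_of_cl (sz φ) (completeness T _ hT ?_ ?_)
  · intro x hx
    obtain ⟨h1, h2⟩ := free_cl hx
    have := lt_of_free (vlt_sz φ) h1
    omega
  · intro S v hS
    refine sat_cl (h S fun ψ hψ w => ?_) _ _
    exact (sat_cong fun x hx => absurd hx (hT ψ hψ x)).1 (hS ψ hψ)

/-! ### propositional rules -/

/-- placeholders for formulas -/
def pp (i : ℕ) : Fml := .op (7 + i) 0 0 0 0

/-- the replacement of the placeholders by formulas -/
def TD.prp (χ : ℕ → Fml) (M : ℕ) : TD := ⟨fun x => x + M, fun i _ => χ (i - 7)⟩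

theorem TD.prp_ok (χ : ℕ → Fml) (Γ : List Fml) (N k M : ℕ) (h1 : ∀ i, Both k (χ i))
    (h2 : ∀ i, sz (χ i) ≤ M) : (TD.prp χ M).Ok Γ N k ((24 * N + 200) * (M + 1)) 7 where
  inj x _ y _ h := by simpa [TD.prp] using h
  free i _ a _ x _ h := by
    have := lt_of_free (vlt_sz _) h
    have := h2 (i - 7)
    simp only [TD.prp] at *
    omega
  bd i _ a _ x _ h := by
    have := lt_of_bd (vlt_sz _) h
    have := h2 (i - 7)
    simp only [TD.prp] at *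
    omega
  sub i _ a _ y _ := by
    refine subst_of_not_free fun h => ?_
    have := lt_of_free (vlt_sz _) h
    have := h2 (i - 7)
    simp only [TD.prp] at *
    omega
  cong i _ a ha b hb := by
    refine (Dv.kid Γ (fun s => .eq s _ _ _) (h1 _)).mono le_rfl ?_ le_rfl
    have := h2 (i - 7)
    simp only [TD.prp, sz_eq]
    nlinarith
  cx i _ a _ := h1 _
  szρ x hx := by simp only [TD.prp]; nlinarith
  szF i _ a _ := by have := h2 (i - 7); simp only [TD.prp]; nlinarith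

/-- Valid formulas with placeholders give rules. -/
theorem prp_rule (θ : Fml) (h : ∀ (S : Str ℕ) (v : ℕ → S.M), Fm.Sat S θ v) :
    ∃ C, 1 ≤ C ∧ ∀ (Γ : List Fml) (k M : ℕ) (χ : ℕ → Fml), (∀ i, Both k (χ i)) →
      (∀ i, sz (χ i) ≤ M) → Dv Γ (k + C) (C * (M + 1)) C ((TD.prp χ M).tr θ) := by
  obtain ⟨C, N, hN, hC⟩ := transfer (T := []) (φ := θ) (pv_of_valid (by simp) fun S _ v => h S v)
  refine ⟨(C + 1) * ((24 * N + 200) * 7), by nlinarith, fun Γ k M χ h1 h2 => ?_⟩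
  have := hC (TD.prp χ M) Γ k ((24 * N + 200) * (M + 1)) 7 (TD.prp_ok χ Γ N k M h1 h2)
    (by nlinarith) (by omega) (by simp)
  refine this.mono ?_ ?_ ?_
  · nlinarith
  · rw [← mul_assoc]
    exact Nat.mul_le_mul_right _ (by nlinarith)
  · nlinarith

/-- four formulas -/
def fo (a b c d : Fml) : ℕ → Fml
  | 0 => a
  | 1 => b
  | 2 => c
  | 3 => d
  | _ => .bot

theorem fo_both {k : ℕ} {a b c d : Fml} (h1 : Both k a) (h2 : Both k b) (h3 : Both k c)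
    (h4 : Both k d) : ∀ i, Both k (fo a b c d i)
  | 0 => h1
  | 1 => h2
  | 2 => h3
  | 3 => h4
  | _ + 4 => .bot

theorem fo_sz {M : ℕ} {a b c d : Fml} (h1 : sz a ≤ M) (h2 : sz b ≤ M) (h3 : sz c ≤ M)
    (h4 : sz d ≤ M) : ∀ i, sz (fo a b c d i) ≤ M
  | 0 => h1
  | 1 => h2
  | 2 => h3
  | 3 => h4
  | _ + 4 => by have := sz_pos a; show sz (Fm.bot : Fml) ≤ M; rw [sz_bot]; omega

/-- `(a → (b → c)) → ((c → d) → (a → (b → d)))` -/
theorem rule_syl2 : ∃ C, 1 ≤ C ∧ ∀ (Γ : List Fml) (k M : ℕ) (a b c d : Fml), Both k a → Both k b →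
    Both k c → Both k d → sz a ≤ M → sz b ≤ M → sz c ≤ M → sz d ≤ M →
    Dv Γ (k + C) (C * (M + 1)) C
      (.imp (.imp a (.imp b c)) (.imp (.imp c d) (.imp a (.imp b d)))) := by
  obtain ⟨C, hC1, hC⟩ := prp_rule (.imp (.imp (pp 0) (.imp (pp 1) (pp 2)))
    (.imp (.imp (pp 2) (pp 3)) (.imp (pp 0) (.imp (pp 1) (pp 3))))) (by
      intro S v; simp only [Fm.sat_imp]; tauto)
  refine ⟨C, hC1, fun Γ k M a b c d h1 h2 h3 h4 s1 s2 s3 s4 => ?_⟩
  exact hC Γ k M (fo a b c d) (fo_both h1 h2 h3 h4) (fo_sz s1 s2 s3 s4)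

/-- `(a → b) → (¬b → ¬a)` -/
theorem rule_contra : ∃ C, 1 ≤ C ∧ ∀ (Γ : List Fml) (k M : ℕ) (a b : Fml), Both k a → Both k b →
    sz a ≤ M → sz b ≤ M →
    Dv Γ (k + C) (C * (M + 1)) C (.imp (.imp a b) (.imp (.neg b) (.neg a))) := by
  obtain ⟨C, hC1, hC⟩ := prp_rule (.imp (.imp (pp 0) (pp 1)) (.imp (.neg (pp 1)) (.neg (pp 0))))
    (by intro S v; simp only [Fm.sat_imp, Fm.sat_neg]; tauto)
  refine ⟨C, hC1, fun Γ k M a b h1 h2 s1 s2 => ?_⟩
  exact hC Γ k M (fo a b a a) (fo_both h1 h2 h1 h1) (fo_sz s1 s2 s1 s1)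

/-- `(¬d → c) → ((a → (b → ¬c)) → (a → (b → d)))` -/
theorem rule_d8 : ∃ C, 1 ≤ C ∧ ∀ (Γ : List Fml) (k M : ℕ) (a b c d : Fml), Both k a → Both k b →
    Both k c → Both k d → sz a ≤ M → sz b ≤ M → sz c ≤ M → sz d ≤ M →
    Dv Γ (k + C) (C * (M + 1)) C
      (.imp (.imp (.neg d) c) (.imp (.imp a (.imp b (.neg c))) (.imp a (.imp b d)))) := by
  obtain ⟨C, hC1, hC⟩ := prp_rule (.imp (.imp (.neg (pp 3)) (pp 2))
    (.imp (.imp (pp 0) (.imp (pp 1) (.neg (pp 2)))) (.imp (pp 0) (.imp (pp 1) (pp 3))))) (by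
      intro S v; simp only [Fm.sat_imp, Fm.sat_neg]; tauto)
  refine ⟨C, hC1, fun Γ k M a b c d h1 h2 h3 h4 s1 s2 s3 s4 => ?_⟩
  exact hC Γ k M (fo a b c d) (fo_both h1 h2 h3 h4) (fo_sz s1 s2 s3 s4)

/-- `(a → b) → ((b → c) → (a → c))` -/
theorem rule_syl : ∃ C, 1 ≤ C ∧ ∀ (Γ : List Fml) (k M : ℕ) (a b c : Fml), Both k a → Both k b →
    Both k c → sz a ≤ M → sz b ≤ M → sz c ≤ M →
    Dv Γ (k + C) (C * (M + 1)) C (.imp (.imp a b) (.imp (.imp b c) (.imp a c))) := by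
  obtain ⟨C, hC1, hC⟩ := prp_rule (.imp (.imp (pp 0) (pp 1)) (.imp (.imp (pp 1) (pp 2))
    (.imp (pp 0) (pp 2)))) (by intro S v; simp only [Fm.sat_imp]; tauto)
  refine ⟨C, hC1, fun Γ k M a b c h1 h2 h3 s1 s2 s3 => ?_⟩
  exact hC Γ k M (fo a b c c) (fo_both h1 h2 h3 h3) (fo_sz s1 s2 s3 s3)

/-- six formulas -/
def si (a b c d e f : Fml) : ℕ → Fml
  | 0 => a
  | 1 => b
  | 2 => c
  | 3 => d
  | 4 => e
  | 5 => f
  | _ => .bot

/-- `(e → (p → p')) → ((e → (q → q')) → (e → (p ∧ (r ∨ q) → p' ∧ (r ∨ q'))))` -/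
theorem rule_cong : ∃ C, 1 ≤ C ∧ ∀ (Γ : List Fml) (k M : ℕ) (e p p' q q' r : Fml), Both k e →
    Both k p → Both k p' → Both k q → Both k q' → Both k r → sz e ≤ M → sz p ≤ M → sz p' ≤ M →
    sz q ≤ M → sz q' ≤ M → sz r ≤ M →
    Dv Γ (k + C) (C * (M + 1)) C
      (.imp (.imp e (.imp p p')) (.imp (.imp e (.imp q q'))
        (.imp e (.imp (.and p (.or r q)) (.and p' (.or r q')))))) := by
  obtain ⟨C, hC1, hC⟩ := prp_rule (.imp (.imp (pp 0) (.imp (pp 1) (pp 2)))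
    (.imp (.imp (pp 0) (.imp (pp 3) (pp 4)))
      (.imp (pp 0) (.imp (.and (pp 1) (.or (pp 5) (pp 3))) (.and (pp 2) (.or (pp 5) (pp 4)))))))
    (by intro S v; simp only [Fm.sat_imp, Fm.sat_and, Fm.sat_or]; tauto)
  refine ⟨C, hC1, fun Γ k M e p p' q q' r h1 h2 h3 h4 h5 h6 s1 s2 s3 s4 s5 s6 => ?_⟩
  exact hC Γ k M (si e p p' q q' r)
    (fun i => match i with
      | 0 => h1 | 1 => h2 | 2 => h3 | 3 => h4 | 4 => h5 | 5 => h6 | _ + 6 => .bot)
    (fun i => match i with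
      | 0 => s1 | 1 => s2 | 2 => s3 | 3 => s4 | 4 => s5 | 5 => s6
      | _ + 6 => by have := sz_pos e; show sz (Fm.bot : Fml) ≤ M; rw [sz_bot]; omega)

end Pool.Agent.T9h6.BC
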