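import Pool.Agent.T9h6.BC.Gn
import Pool.Agent.T9h6.BC.Defs
import Pool.Agent.TH197.J1545a
import Pool.Agent.TH838.J1549

/-!
# The relations are decidable
-/

set_option autoImplicit false

namespace Pool.Agent.T9h6.BC

open Pool.Agent.TH672 (Fm varStr num digits LogK)
open Pool.Agent.TH636.BC
open Pool.Agent.TH955.J1547 (p_var isF isF_primrec isF_iff gnLog)
open Pool.Agent.TH554.J1548 (lsts mem_lsts lsts_primrec Chk chk_primrec isPf_iff sL sL_map sL_primrec
  exists_map length_le_strs length_le_num str_le_strs num_primrec prComp)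
open Pool.Agent.TH197.J1545 (code_inj num_inj str_pre digits_num str_ne_nil strs_cons)

/-- The relation for few variables is decidable. -/
theorem refRel_primrec : PrimrecPred fun x : ℕ × ℕ × ℕ => RefRel x.1 x.2.1 x.2.2 := by
  classical
  obtain ⟨L, hL, hL'⟩ := gnLog
  have key : ∀ x : ℕ × ℕ × ℕ, (∃ G ∈ lsts (Bd x.1) x.1, ∃ π ∈ lsts (Bd x.2.2) x.2.2,
      (Chk isF st L π G (x.1, x.2.2, code [Fm.bot]) ∧ ∀ a ∈ π, vl x.2.1 a = true)) ↔
      RefRel x.1 x.2.1 x.2.2 := by
    rintro ⟨c, k, m⟩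
    simp only
    constructor
    · rintro ⟨G, -, π, -, ⟨hG, hπ, hc, hm, hpf, f, hf, hd⟩, hv⟩
      obtain ⟨Γ, rfl⟩ := exists_map isF_iff G hG
      obtain ⟨Q, rfl⟩ := exists_map isF_iff π hπ
      rw [isPf_iff hL'] at hpf
      rw [sL_map st_gn] at hc hm
      cases Q with
      | nil => simp at hf
      | cons φ Q =>
        simp only [List.map_cons, List.head?_cons, Option.toList_some, List.mem_singleton] at hf
        subst hf
        rw [st_gn] at hd
        have hφ : φ = Fm.bot := by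
          have : code [φ] = code [Fm.bot] := by
            refine Eq.trans ?_ hd
            simp [code, strs]
          simpa using code_inj this
        subst hφ
        refine ⟨Γ, Q, hc.symm, hpf, fun ψ hψ => ?_, hm⟩
        exact (vl_gn k ψ).1 (hv _ (List.mem_map_of_mem hψ))
    · rintro ⟨Γ, Q, rfl, hpf, hv, hm⟩
      have hlen : (strs Γ).length ≤ code Γ := length_le_num _
      refine ⟨Γ.map gn, ?_, (Fm.bot :: Q).map gn, ?_, ⟨?_, ?_, ?_, ?_, ?_, ?_⟩, ?_⟩
      · rw [mem_lsts]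
        refine ⟨?_, ?_⟩
        · rw [List.length_map]
          exact (length_le_strs Γ).trans hlen
        · intro a ha
          obtain ⟨ψ, hψ, rfl⟩ := List.mem_map.1 ha
          exact (gn_le ψ).trans (Bd_mono ((str_le_strs hψ).trans hlen))
      · rw [mem_lsts]
        refine ⟨?_, ?_⟩
        · rw [List.length_map]
          exact (length_le_strs _).trans hm
        · intro a ha
          obtain ⟨ψ, hψ, rfl⟩ := List.mem_map.1 ha
          exact (gn_le ψ).trans (Bd_mono ((str_le_strs hψ).trans hm))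
      · intro a ha
        obtain ⟨ψ, hψ, rfl⟩ := List.mem_map.1 ha
        exact (isF_iff _).2 ⟨ψ, rfl⟩
      · intro a ha
        obtain ⟨ψ, hψ, rfl⟩ := List.mem_map.1 ha
        exact (isF_iff _).2 ⟨ψ, rfl⟩
      · rw [sL_map st_gn]
        rfl
      · rw [sL_map st_gn]
        exact hm
      · rw [isPf_iff hL']
        exact hpf
      · refine ⟨gn Fm.bot, by simp, ?_⟩
        rw [st_gn]
        simp [code, strs]
      · intro a ha
        obtain ⟨ψ, hψ, rfl⟩ := List.mem_map.1 ha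
        exact (vl_gn k ψ).2 (hv ψ hψ)
  have hC := chk_primrec isF_primrec st_primrec hL
  have h1 : Primrec fun p : List ℕ × (List ℕ × (ℕ × ℕ × ℕ)) =>
      (p.1, p.2.1, ((p.2.2.1, p.2.2.2.2, code [Fm.bot]) : ℕ × ℕ × ℕ)) :=
    Primrec.pair Primrec.fst (Primrec.pair (Primrec.fst.comp Primrec.snd)
      (Primrec.pair (Primrec.fst.comp (Primrec.snd.comp Primrec.snd))
        (Primrec.pair (Primrec.snd.comp (Primrec.snd.comp (Primrec.snd.comp Primrec.snd)))
          (Primrec.const _))))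
  have hC' : PrimrecPred fun p : List ℕ × (List ℕ × (ℕ × ℕ × ℕ)) =>
      Chk isF st L p.1 p.2.1 (p.2.2.1, p.2.2.2.2, code [Fm.bot]) := hC.comp h1
  have hv1 : PrimrecRel fun (a : ℕ) (k : ℕ) => vl k a = true :=
    Primrec.eq.comp (vl_primrec.comp Primrec.snd Primrec.fst) (Primrec.const true)
  have hv2 : PrimrecRel fun (π : List ℕ) (k : ℕ) => ∀ a ∈ π, vl k a = true :=
    PrimrecRel.forall_mem_list hv1
  have hv3 : PrimrecPred fun p : List ℕ × (List ℕ × (ℕ × ℕ × ℕ)) =>
      ∀ a ∈ p.1, vl p.2.2.2.1 a = true :=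
    hv2.comp Primrec.fst (Primrec.fst.comp (Primrec.snd.comp (Primrec.snd.comp Primrec.snd)))
  have h4 : PrimrecRel fun (π : List ℕ) (q : List ℕ × (ℕ × ℕ × ℕ)) =>
      (Chk isF st L π q.1 (q.2.1, q.2.2.2, code [Fm.bot]) ∧ ∀ a ∈ π, vl q.2.2.1 a = true) :=
    hC'.and hv3
  have h3 : PrimrecRel fun (G : List ℕ) (x : ℕ × ℕ × ℕ) => ∃ π ∈ lsts (Bd x.2.2) x.2.2,
      (Chk isF st L π G (x.1, x.2.2, code [Fm.bot]) ∧ ∀ a ∈ π, vl x.2.1 a = true) := by
    refine (PrimrecRel.exists_mem_list h4).comp (f := fun q : List ℕ × (ℕ × ℕ × ℕ) =>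
      lsts (Bd q.2.2.2) q.2.2.2) (g := fun q => q) ?_ Primrec.id
    have h5 : Primrec fun q : List ℕ × (ℕ × ℕ × ℕ) => q.2.2.2 :=
      Primrec.snd.comp (Primrec.snd.comp Primrec.snd)
    exact lsts_primrec.comp (Bd_primrec.comp h5) h5
  have h6 : PrimrecPred fun x : ℕ × ℕ × ℕ => ∃ G ∈ lsts (Bd x.1) x.1,
      ∃ π ∈ lsts (Bd x.2.2) x.2.2,
      (Chk isF st L π G (x.1, x.2.2, code [Fm.bot]) ∧ ∀ a ∈ π, vl x.2.1 a = true) :=
    (PrimrecRel.exists_mem_list h3).comp (lsts_primrec.comp (Bd_primrec.comp Primrec.fst)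
      Primrec.fst) Primrec.id
  exact h6.of_eq key

end Pool.Agent.T9h6.BC
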