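import Pool.Agent.T9h6.BC.Rel

/-!
# The relation for the theory `T(Γ)` is decidable; numerations
-/

set_option autoImplicit false

namespace Pool.Agent.T9h6.BC

open Pool.Agent.TH672 (Fm varStr num digits LogK)
open Pool.Agent.TH636.BC
open Pool.Agent.TH955.J1547 (p_var isF isF_primrec isF_iff gnLog)
open Pool.Agent.TH554.J1548 (lsts mem_lsts lsts_primrec Chk chk_primrec isPf_iff sL sL_map sL_primrec
  exists_map length_le_strs length_le_num str_le_strs num_primrec prComp)
open Pool.Agent.TH197.J1545 (code_inj num_inj str_pre digits_num str_ne_nil strs_cons strs_append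
  digits_odd digits_even digits_zero)
open Pool.Agent.TH838.J1549 (repr)

/-- the repeated block -/
def rep (n : ℕ) : List Bool := (List.replicate n bs).flatten

theorem rep_eq (n : ℕ) : rep n = Nat.rec [] (fun _ l => bs ++ l) n := by
  induction n with
  | zero => rfl
  | succ n ih =>
    have : rep (n + 1) = bs ++ rep n := by simp [rep, List.replicate_succ]
    rw [this, ih]

theorem rep_primrec : Primrec rep := by
  have e : rep = fun n => Nat.rec [] (fun _ l => bs ++ l) n := funext rep_eq
  rw [e]
  exact Primrec.nat_rec₁ [] (Primrec.list_append.comp (Primrec.const bs) Primrec.snd)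

/-- the end of the string of the beginning of an instance -/
def tlx (x : ℕ) : List Bool :=
  [true, false, false, false] ++ varStr x ++ [false, true, true, true] ++ str (.eq x 0)

theorem str_blk_iter (n : ℕ) (ψ : Fml) : str (blk^[n] ψ) = rep n ++ str ψ := by
  induction n with
  | zero => simp [rep]
  | succ n ih =>
    have h1 : rep (n + 1) = bs ++ rep n := by simp [rep, List.replicate_succ]
    have h2 : str (blk (blk^[n] ψ)) = bs ++ str (blk^[n] ψ) := by simp [blk, bs, str]
    rw [Function.iterate_succ_apply', h2, ih, h1, List.append_assoc]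

theorem str_instx (x n : ℕ) (φ : Fml) : str (inst x n φ) = hd ++ rep n ++ tlx x ++ str φ := by
  have e : str (inst x n φ) = hd ++ str (blk^[n] (.all x (.imp (.eq x 0) φ))) := by
    simp [inst, hd, str]
  rw [e, str_blk_iter]
  simp [tlx, str]

variable (V : Fml)

/-- the last part of the sentences -/
def Phi : Fml := .all 4 (.imp (.neg (.succ 4 4)) (.neg V))

/-- the strings of the sentences -/
def cs (c k : ℕ) : List Bool := hd ++ rep c ++ tlx 2 ++ (hd ++ rep k ++ tlx 3 ++ str (Phi V))

theorem str_conV (Γ : List Fml) (k : ℕ) : str (conV V Γ k) = cs V (code Γ) k := by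
  unfold conV cs
  rw [str_instx, str_instx]
  rfl

theorem cs_primrec : Primrec₂ (cs V) := by
  unfold cs
  refine Primrec.list_append.comp (Primrec.list_append.comp (Primrec.list_append.comp
    (Primrec.const _) (rep_primrec.comp Primrec.fst)) (Primrec.const _)) ?_
  exact Primrec.list_append.comp (Primrec.list_append.comp (Primrec.list_append.comp
    (Primrec.const _) (rep_primrec.comp Primrec.snd)) (Primrec.const _)) (Primrec.const _)

theorem digits_primrec : Primrec digits := by
  have h : Primrec₂ fun (_ : Unit) (n : ℕ) => digits n := by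
    refine Primrec.nat_strong_rec (fun (_ : Unit) (n : ℕ) => digits n)
      (g := fun _ l => some (cond (decide (l.length = 0)) []
        (((l[(l.length - 1) / 2]?).getD []) ++ [decide (l.length % 2 = 0)]))) ?_ ?_
    · have hl : Primrec fun x : Unit × List (List Bool) => x.2.length :=
        Primrec.list_length.comp Primrec.snd
      refine Primrec.option_some.comp (Primrec.cond ?_ (Primrec.const _) ?_)
      · exact (Primrec.eq.comp hl (Primrec.const 0)).decide
      · refine Primrec.list_append.comp (Primrec.option_getD.comp (Primrec.list_getElem?.comp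
          Primrec.snd (Primrec.nat_div.comp (Primrec.nat_sub.comp hl (Primrec.const 1))
            (Primrec.const 2))) (Primrec.const _)) ?_
        refine Primrec.list_cons.comp ?_ (Primrec.const _)
        exact (Primrec.eq.comp (Primrec.nat_mod.comp hl (Primrec.const 2))
          (Primrec.const 0)).decide
    · intro _ n
      simp only [List.length_map, List.length_range]
      congr 1
      by_cases h : n = 0
      · subst h; simp [digits_zero]
      · rw [decide_eq_false h, cond_false]
        have h1 : (n - 1) / 2 < n := by omega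
        rw [digits]
        simp [h, h1]
  exact h.comp (Primrec.const ()) Primrec.id

/-- the code of the list of the first sentences and the list with the code `c` -/
def hh (c y : ℕ) : ℕ := num ((List.range y).flatMap (cs V c) ++ digits c)

theorem hh_primrec : Primrec₂ (hh V) := by
  unfold hh
  refine num_primrec.comp (Primrec.list_append.comp ?_ (digits_primrec.comp Primrec.fst))
  exact Primrec.list_flatMap (Primrec.list_range.comp Primrec.snd)
    ((cs_primrec V).comp (Primrec.fst.comp Primrec.fst) Primrec.snd).to₂

theorem parse : ∀ {Δ : List Fml} {w : List Bool} {Γ : List Fml}, strs Δ ++ w = strs Γ →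
    ∃ Γ', Γ = Δ ++ Γ' ∧ w = strs Γ'
  | [], w, Γ, h => ⟨Γ, rfl, by simpa [strs] using h⟩
  | φ :: Δ, w, [], h => by
    exfalso
    have h1 := str_ne_nil φ
    rw [strs_cons] at h
    have h2 : str φ ++ strs Δ ++ w = [] := h
    simp only [List.append_eq_nil_iff] at h2
    exact h1 h2.1.1
  | φ :: Δ, w, ψ :: Γ, h => by
    rw [strs_cons, strs_cons, List.append_assoc] at h
    obtain ⟨rfl, h1⟩ := str_pre h
    obtain ⟨Γ', rfl, h2⟩ := parse h1
    exact ⟨Γ', rfl, h2⟩

theorem isProof_sub {Γ Γ' : List Fml} : ∀ {π : List Fml}, (∀ ψ ∈ π, ψ ∈ Γ → ψ ∈ Γ') →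
    IsProof Γ π → IsProof Γ' π
  | [], _, _ => trivial
  | φ :: π, h, ⟨h1, h2⟩ => by
    refine ⟨isProof_sub (fun ψ hψ => h ψ (List.mem_cons_of_mem _ hψ)) h1, ?_⟩
    rcases h2 with h2 | h2
    · exact .inl (h φ (List.mem_cons_self ..) h2)
    · exact .inr h2

theorem rep_length (n : ℕ) : n ≤ (rep n).length := by
  induction n with
  | zero => exact Nat.zero_le _
  | succ n ih =>
    have : rep (n + 1) = bs ++ rep n := by simp [rep, List.replicate_succ]
    rw [this, List.length_append]
    have : 1 ≤ bs.length := by simp [bs]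
    omega

theorem lt_length_conV (Γ : List Fml) (k : ℕ) : k < (str (conV V Γ k)).length := by
  rw [str_conV]
  unfold cs
  have h1 := rep_length k
  have h2 : 1 ≤ hd.length := by simp [hd]
  simp only [List.length_append]
  omega

/-- Only the first `y` sentences occur in proofs of length `y`. -/
theorem provesT_iff (Γ : List Fml) (y : ℕ) (φ : Fml) :
    ProvesT V Γ y φ ↔ Proves ((List.range y).map (conV V Γ) ++ Γ) y φ := by
  constructor
  · rintro ⟨K, π, h1, h2⟩
    refine ⟨π, isProof_sub (fun ψ hψ hΓ => ?_) h1, h2⟩
    rcases List.mem_append.1 hΓ with h | h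
    · obtain ⟨k, hk, rfl⟩ := List.mem_map.1 h
      refine List.mem_append_left _ (List.mem_map_of_mem (List.mem_range.2 ?_))
      exact (lt_length_conV V Γ k).trans_le ((str_le_strs hψ).trans h2)
    · exact List.mem_append_right _ h
  · exact fun h => ⟨y, h⟩

theorem strs_map (Γ : List Fml) (y : ℕ) :
    strs ((List.range y).map (conV V Γ)) = (List.range y).flatMap (cs V (code Γ)) := by
  unfold strs
  rw [List.flatMap_map]
  congr 1
  funext k
  exact str_conV V Γ k

theorem tRel_iff (c y d : ℕ) : TRel V c y d ↔ PrRel (hh V c y) y d := by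
  constructor
  · rintro ⟨Γ, φ, rfl, rfl, h⟩
    rw [provesT_iff] at h
    refine ⟨_, φ, ?_, rfl, h⟩
    unfold hh code
    rw [strs_append, strs_map, digits_num]
    rfl
  · rintro ⟨Γ', φ, h1, rfl, h2⟩
    have h3 := num_inj h1
    obtain ⟨w, hw⟩ : ∃ w, w = digits c := ⟨_, rfl⟩
    -- parse the first part
    have key : ∀ (n : ℕ) (w : List Bool) (Γ' : List Fml),
        (List.range n).flatMap (cs V c) ++ w = strs Γ' →
        ∃ Γ'', Γ' = (List.range n).map (fun k => inst 2 c (inst 3 k (Phi V))) ++ Γ'' ∧
          w = strs Γ'' := by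
      intro n w Γ' h
      refine parse ?_
      rw [← h]
      congr 1
      unfold strs
      rw [List.flatMap_map]
      congr 1
      funext k
      rw [str_instx, str_instx]
      rfl
    obtain ⟨Γ, e1, e2⟩ := key y _ Γ' h3
    have e3 : c = code Γ := by
      unfold code
      rw [← e2]
      have : ∀ n, num (digits n) = n := by
        intro n
        induction n using Nat.strong_induction_on with
        | _ n ih =>
          rcases Nat.eq_zero_or_pos n with rfl | hn
          · rw [digits_zero]; rfl
          · rcases Nat.even_or_odd' n with ⟨m, rfl | rfl⟩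
            · obtain ⟨m, rfl⟩ : ∃ t, m = t + 1 := ⟨m - 1, by omega⟩
              rw [show 2 * (m + 1) = 2 * m + 2 by ring, digits_even,
                Pool.Agent.TH197.J1545.num_snoc, ih m (by omega)]
              simp
            · rw [digits_odd, Pool.Agent.TH197.J1545.num_snoc, ih m (by omega)]
              simp
      exact (this c).symm
    subst e3
    refine ⟨Γ, φ, rfl, rfl, ?_⟩
    rw [provesT_iff]
    rw [e1] at h2
    exact h2

theorem prRel_comp : PrComp := prComp gnStr gnLog

theorem comp_aux {R : ℕ × ℕ × ℕ → Prop} (h : ComputablePred R) {f : ℕ × ℕ × ℕ → ℕ × ℕ × ℕ}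
    (hf : Computable f) : ComputablePred fun x => R (f x) := by
  obtain ⟨hd, hc⟩ := h
  exact ⟨fun x => hd _, hc.comp hf⟩

theorem hh_comp : Computable fun x : ℕ × ℕ × ℕ => (hh V x.1 x.2.1, x.2.1, x.2.2) :=
  Primrec.to_comp (Primrec.pair ((hh_primrec V).comp Primrec.fst
      (Primrec.fst.comp Primrec.snd)) (Primrec.pair (Primrec.fst.comp Primrec.snd)
        (Primrec.snd.comp Primrec.snd)))

theorem tRel_comp : ComputablePred fun x : ℕ × ℕ × ℕ => TRel V x.1 x.2.1 x.2.2 := by
  have h1 := comp_aux prRel_comp (hh_comp V)
  refine h1.of_eq fun x => ?_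
  exact (tRel_iff V _ _ _).symm

theorem exists_num {R : ℕ → ℕ → ℕ → Prop}
    (h : ComputablePred fun x : ℕ × ℕ × ℕ => R x.1 x.2.1 x.2.2) : ∃ P, Num R P := by
  obtain ⟨P, h1, h2, h3, h4⟩ := repr R h.to_re h.not.to_re
  exact ⟨P, h1, h2, h3, h4⟩

/-- There is a numeration of the first relation. -/
theorem exists_V : ∃ V, Num RefRel V := by
  obtain ⟨hd, hc⟩ := refRel_primrec
  exact exists_num ⟨hd, hc.to_comp⟩

/-- There is a numeration of the second relation. -/
theorem exists_P : ∃ P, Num (TRel V) P := exists_num (tRel_comp V)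

end Pool.Agent.T9h6.BC
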