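import Pool.Agent.T9h6.BC.Tpl

/-!
# One step of the derivation
-/

set_option autoImplicit false

namespace Pool.Agent.T9h6.BC

open Pool.Agent.TH672 (Fm Str upd varStr num digits LogK ReplK Sw Pv)
open Pool.Agent.TH672.Form (ren)
open Pool.Agent.TH636.BC

/-- the translation for the step -/
def tdS (N0 c : ℕ) : TD :=
  ⟨fun x => if x = 40 then N0 + 3 * c else if x = 41 then N0 + 3 * c + 1
    else if x = 42 then N0 + 3 * c + 2 else x, fun _ a => Uf N0 c a⟩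

/-- the translation without renaming -/
def tdI (N0 c : ℕ) : TD := ⟨fun x => x, fun _ a => Uf N0 c a⟩

theorem exists_tdS : ∃ C, 1 ≤ C ∧ ∀ (Γ : List Fml) (N N0 n c : ℕ), N ≤ N0 → c ≤ n →
    (tdS N0 c).Ok Γ N C (C * MU N0 n) (C * (n + 1)) := by
  obtain ⟨C, hC1, hC⟩ := exists_cong
  refine ⟨C, hC1, fun Γ N N0 n c hN hc => ?_⟩
  have hM := MU_pos N0 n
  have hM' := le_MU (N0 := N0) (n := n)
  have hCM : MU N0 n ≤ C * MU N0 n := Nat.le_mul_of_pos_left _ hC1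
  have hρ : ∀ x < N, (tdS N0 c).ρ x < N0 + 3 * n + 3 ∧
      ¬ (N0 ≤ (tdS N0 c).ρ x ∧ (tdS N0 c).ρ x < N0 + 3 * c) := by
    intro x hx
    simp only [tdS]
    split_ifs <;> omega
  refine ⟨?_, ?_, ?_, ?_, ?_, ?_, ?_, ?_⟩
  · intro x hx y hy h
    simp only [tdS] at h
    split_ifs at h <;> omega
  · intro i _ a ha x hx h
    rcases free_Uf h with h | h
    · simp only [tdS] at h
      split_ifs at h <;> omega
    · exact absurd h (hρ x hx).2
  · intro i _ a _ x _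
    exact bd_Uf
  · intro i _ a ha y _
    exact subst_Uf (hρ a ha).2
  · intro i _ a ha b hb
    refine (hC Γ N0 n c _ _ hc (hρ a ha).1.le (hρ b hb).1.le).mono le_rfl le_rfl
      (Nat.mul_le_mul_left _ (by omega))
  · intro i _ a _
    exact both_Uf _ _ _
  · intro x hx
    have := (hρ x hx).1
    omega
  · intro i _ a ha
    exact (sz_Uf_le hc (hρ a ha).1.le).trans hCM

theorem exists_tdI : ∃ C, 1 ≤ C ∧ ∀ (Γ : List Fml) (N N0 n c : ℕ), N ≤ N0 → c ≤ n →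
    (tdI N0 c).Ok Γ N C (C * MU N0 n) (C * (n + 1)) := by
  obtain ⟨C, hC1, hC⟩ := exists_cong
  refine ⟨C, hC1, fun Γ N N0 n c hN hc => ?_⟩
  have hM := MU_pos N0 n
  have hM' := le_MU (N0 := N0) (n := n)
  have hCM : MU N0 n ≤ C * MU N0 n := Nat.le_mul_of_pos_left _ hC1
  refine ⟨?_, ?_, ?_, ?_, ?_, ?_, ?_, ?_⟩
  · intro x hx y hy h
    exact h
  · intro i _ a ha x hx h
    rcases free_Uf h with h | h
    · exact h
    · simp only [tdI] at h; omega
  · intro i _ a _ x _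
    exact bd_Uf
  · intro i _ a ha y _
    exact subst_Uf (by simp only [tdI]; omega)
  · intro i _ a ha b hb
    refine (hC Γ N0 n c _ _ hc (by simp only [tdI]; omega) (by simp only [tdI]; omega)).mono le_rfl
      le_rfl (Nat.mul_le_mul_left _ (by omega))
  · intro i _ a _
    exact both_Uf _ _ _
  · intro x hx
    simp only [tdI]
    omega
  · intro i _ a ha
    exact (sz_Uf_le hc (by simp only [tdI]; omega)).trans hCM

theorem tdS_J0 (N0 c : ℕ) : (tdS N0 c).tr (Jf B0 0) = Jf (Uf N0 c) 0 := rfl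

theorem tdS_J1 (N0 c : ℕ) : (tdS N0 c).tr (Jf B1 1) = Jf (Uf N0 (c + 1)) 1 := rfl

theorem tdI_J0 (N0 c g : ℕ) : (tdI N0 c).tr (Jf B0 g) = Jf (Uf N0 c) g := rfl

theorem tdS_T0 (N0 c : ℕ) : ∀ ψ ∈ T0, (tdS N0 c).tr ψ = ψ := by
  simp only [T0, List.mem_cons, List.not_mem_nil, or_false, forall_eq_or_imp, forall_eq]
  refine ⟨rfl, rfl, rfl, rfl, rfl, rfl, rfl, rfl, rfl, rfl, rfl, rfl⟩

/-- the formulas of the two parts of `Jf` -/
def Jf1 (U : ℕ → Fml) : Fml :=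
  .all 5 (.imp (nat 5) (.ex 6 (.ex 7 (.and (U 6) (.and (ht 6 7) (lt 5 7))))))

/-- the inner part -/
def Jf3 (U : ℕ → Fml) : Fml :=
  .all 7 (.all 8 (.all 9 (.imp (U 7) (.imp (ht 7 8) (.imp (lt 6 8) (.imp (lt 9 10)
        (.neg (col 5 7 9))))))))

/-- the second part -/
def Jf2 (U : ℕ → Fml) (g : ℕ) : Fml :=
  .all 10 (.imp (.eq 10 g) (.all 5 (.imp (U 5) (.ex 6 (.and (nat 6) (Jf3 U))))))

theorem Jf_eq (U : ℕ → Fml) (g : ℕ) : Jf U g = .and (nat g) (.and (Jf1 U) (Jf2 U g)) := rfl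

theorem free_Jf {N0 c g x : ℕ} (h : (Jf (Uf N0 c) g).Free x) :
    x = g ∨ (N0 ≤ x ∧ x < N0 + 3 * c) := by
  by_contra hx
  rw [not_or] at hx
  have e' : ∀ a, (Uf N0 c a).Free x → x = a := fun a h => by
    rcases free_Uf h with h' | h'
    · exact h'
    · exact absurd h' hx.2
  have f3 : (Jf3 (Uf N0 c)).Free x → x = 5 ∨ x = 6 ∨ x = 10 := by
    intro h
    simp only [Jf3, ht, lt, col, Fm.neg, Fm.Free, or_false] at h
    obtain ⟨h7, h8, h9, h⟩ := h
    rcases h with h | h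
    · exact absurd (e' 7 h) h7
    · omega
  have f2 : ¬ (Jf2 (Uf N0 c) g).Free x := by
    intro h
    simp only [Jf2, nat, Fm.and, Fm.ex, Fm.neg, Fm.Free, or_false] at h
    obtain ⟨h10, h | ⟨h5, h | ⟨h6, h | h⟩⟩⟩ := h
    · omega
    · exact absurd (e' 5 h) h5
    · omega
    · have := f3 h; omega
  have f1 : ¬ (Jf1 (Uf N0 c)).Free x := by
    intro h
    simp only [Jf1, nat, ht, lt, Fm.and, Fm.ex, Fm.neg, Fm.Free, or_false] at h
    obtain ⟨h5, h | ⟨h6, h7, h | h⟩⟩ := h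
    · omega
    · exact absurd (e' 6 h) h6
    · omega
  rw [Jf_eq] at h
  simp only [nat, Fm.and, Fm.neg, Fm.Free, or_false, or_self] at h
  rcases h with h | h | h
  · exact hx.1 h
  · exact f1 h
  · exact f2 h

theorem both_Jf (N0 c g : ℕ) : Both 12 (Jf (Uf N0 c) g) := by
  have hU : ∀ {k : ℕ} a, Both k (Uf N0 c a) := fun a => both_Uf _ _ _
  have hop : ∀ {k i a b d e : ℕ}, Both k (.op i a b d e) := fun s => .op s _ _ _ _ _ _
  have heq : ∀ {k a b : ℕ}, Both k (.eq a b) := fun s => .eq s _ _ _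
  have h3 : Both 6 (Jf3 (Uf N0 c)) :=
    Both.all (k := 4) _ (Both.all (k := 2) _ (Both.all (k := 0) _ (Both.imp (hU _)
      (Both.imp hop (Both.imp hop (Both.imp hop hop.neg))))))
  have h2 : Both 12 (Jf2 (Uf N0 c) g) :=
    Both.all (k := 10) _ (Both.imp heq (Both.all (k := 8) _ (Both.imp (hU _)
      (Both.all (k := 6) _ (Both.and hop h3).neg).neg)))
  have h1 : Both 6 (Jf1 (Uf N0 c)) :=
    Both.all (k := 4) _ (Both.imp hop (Both.all (k := 2) _ (Both.all (k := 0) _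
      (Both.and (hU _) (Both.and hop hop)).neg).neg.neg).neg)
  exact Both.and hop (Both.and (h1.mono (by omega)) h2)

theorem sz_Uf_small {N0 c n a : ℕ} (hc : c ≤ n) (ha : a ≤ 10) : sz (Uf N0 c a) ≤ MU N0 n := by
  refine (sz_Uf N0 a c n hc).trans ?_
  have h1 : c * (4 * N0 + 12 * n + a + 80) ≤ n * (4 * N0 + 12 * n + 90) :=
    Nat.mul_le_mul hc (by omega)
  have h2 : 12 + n * (4 * N0 + 12 * n + 90) ≤ (100 + 100 * N0) * (n + 1) ^ 2 := by
    nlinarith [Nat.zero_le (N0 * n ^ 2), Nat.zero_le (N0 * n)]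
  exact (Nat.add_le_add_left h1 12).trans h2

theorem sz_Jf_eq (U : ℕ → Fml) (g : ℕ) :
    sz (Jf U g) = sz (U 5) + sz (U 6) + sz (U 7) + (626 + 5 * g) := by
  simp only [Jf, nat, ht, lt, col, sz_and, sz_imp, sz_all, sz_ex, sz_op, sz_eq, sz_neg]
  ring

theorem sz_Jf {N0 c n g : ℕ} (hg : g ≤ 1) (hc : c ≤ n) : sz (Jf (Uf N0 c) g) ≤ 10 * MU N0 n := by
  have hM := MU_pos N0 n
  have h5 := sz_Uf_small (N0 := N0) (a := 5) hc (by norm_num)
  have h6 := sz_Uf_small (N0 := N0) (a := 6) hc (by norm_num)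
  have h7 := sz_Uf_small (N0 := N0) (a := 7) hc (by norm_num)
  rw [sz_Jf_eq]
  generalize MU N0 n = M at *
  omega

end Pool.Agent.T9h6.BC
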