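import Pool.Agent.T9h6.BC.Uf

/-!
# The valid formulas of the induction
-/

set_option autoImplicit false

namespace Pool.Agent.T9h6.BC

open Pool.Agent.TH672 (Fm Str upd varStr num digits LogK ReplK Sw Pv)
open Pool.Agent.TH672.Form (ren)
open Pool.Agent.TH636.BC
open Pool.Agent.TH838.J1549 (sat_cong)

/-- The semantics of the basic axioms. -/
structure T0S (S : Str ℕ) : Prop where
  zex : ∃ z, S.zero z
  sex : ∀ a, ∃ b, S.succ a b
  snz : ∀ a b, S.succ a b → ¬ S.zero b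
  nz : ∀ a, S.zero a → S.op 0 a a a a
  ns : ∀ a b, S.op 0 a a a a → S.succ a b → S.op 0 b b b b
  ltz : ∀ a b, S.zero a → ¬ S.op 1 b a a a
  lts : ∀ a b c, S.succ a b → S.op 1 c b b b → S.op 1 c a a a ∨ c = a
  mx : ∀ a b, S.op 0 a a a a → S.op 0 b b b b → ∃ c, S.op 0 c c c c ∧
    ∀ d, S.op 1 c d d d → S.op 1 a d d d ∧ S.op 1 b d d d
  htn : ∀ a b, S.op 2 a b b b → S.op 0 b b b b
  hex : ∀ a, S.op 0 a a a a → ∃ b c, S.op 2 b c c c ∧ S.op 1 a c c c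
  cex : ∀ a b c d, S.op 2 a c c c → S.op 2 b d d d → S.op 1 c d d d → ∃ e, S.op 3 a b e e
  tri : ∀ a b c d, S.op 3 a b d d → S.op 3 a c d d → ¬ S.op 3 b c d d

theorem t0s_of {S : Str ℕ} {v : ℕ → S.M} (h : ∀ ψ ∈ T0, Fm.Sat S ψ v) : T0S S := by
  have u : ∀ (w : ℕ → S.M) (x : ℕ) (a : S.M) (y : ℕ), upd w x a y = if y = x then a else w y :=
    fun _ _ _ _ => rfl
  simp only [T0, nat, ht, lt, col, List.mem_cons, List.not_mem_nil, or_false, forall_eq_or_imp,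
    forall_eq, Fm.sat_and, Fm.sat_or, Fm.sat_all, Fm.sat_imp, Fm.sat_ex, Fm.sat_op,
    Fm.sat_eq, Fm.sat_neg, Fm.sat_zero, Fm.sat_succ] at h
  simp only [u] at h
  norm_num at h
  obtain ⟨h1, h2, h3, h4, h5, h6, h7, h8, h9, h10, h11, h12⟩ := h
  exact ⟨h1, h2, h3, h4, h5, h6, h7, h8, h9, h10, h11, h12⟩

theorem closed_T0 : ∀ ψ ∈ T0, ψ.Closed := by
  simp only [T0, nat, ht, lt, col, List.mem_cons, List.not_mem_nil, or_false, forall_eq_or_imp,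
    forall_eq, Fm.Closed, Fm.Free, Fm.ex, Fm.or, Fm.and, Fm.neg]
  refine ⟨?_, ?_, ?_, ?_, ?_, ?_, ?_, ?_, ?_, ?_, ?_, ?_⟩ <;> intro x <;> omega

/-- the placeholder -/
def B0 (a : ℕ) : Fml := .op 6 a a a a

/-- the placeholder for the next step -/
def B1 (a : ℕ) : Fml := .and (B0 a) (.or (.zero 42) (col 40 a 41))

/-- The induction step. -/
theorem js_step {S : Str ℕ} (h : T0S S) {B : S.M → Prop} {g g' : S.M} (hJ : JS S B g)
    (hs : S.succ g g') :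
    ∃ X Y Z, JS S (fun y => B y ∧ (S.zero Z ∨ S.op 3 X y Y Y)) g' := by
  classical
  obtain ⟨h1, h2, h3⟩ := hJ
  by_cases hc : ∀ x, B x → ∃ h, S.op 0 h h h h ∧ ∀ y h', B y → S.op 2 y h' h' h' →
      S.op 1 h h' h' h' → ¬ S.op 3 x y g g
  · obtain ⟨z, hz⟩ := h.zex
    refine ⟨z, z, z, h.ns _ _ h1 hs, ?_, ?_⟩
    · intro a ha
      obtain ⟨y, h', e1, e2, e3⟩ := h2 a ha
      exact ⟨y, h', ⟨e1, .inl hz⟩, e2, e3⟩
    · rintro x ⟨hx, -⟩
      obtain ⟨a, ha, ha'⟩ := h3 x hx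
      obtain ⟨b, hb, hb'⟩ := hc x hx
      obtain ⟨m, hm, hm'⟩ := h.mx a b ha hb
      refine ⟨m, hm, ?_⟩
      rintro y h' c ⟨hy, -⟩ e1 e2 e3
      obtain ⟨e4, e5⟩ := hm' h' e2
      rcases h.lts g g' c hs e3 with e6 | e6
      · exact ha' y h' c hy e1 e4 e6
      · rw [e6]; exact hb' y h' hy e1 e5
  · push Not at hc
    obtain ⟨x0, hx0, hc⟩ := hc
    obtain ⟨z, hz⟩ := h.zex
    obtain ⟨z', hz'⟩ := h.sex z
    have hz'' := h.snz _ _ hz'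
    refine ⟨x0, g, z', h.ns _ _ h1 hs, ?_, ?_⟩
    · intro a ha
      obtain ⟨y, h', e1, e2, e3, e4⟩ := hc a ha
      exact ⟨y, h', ⟨e1, .inr e4⟩, e2, e3⟩
    · rintro x ⟨hx, hx' | hx'⟩
      · exact absurd hx' hz''
      obtain ⟨a, ha, ha'⟩ := h3 x hx
      refine ⟨a, ha, ?_⟩
      rintro y h' c ⟨hy, hy' | hy'⟩ e1 e2 e3
      · exact absurd hy' hz''
      rcases h.lts g g' c hs e3 with e6 | e6
      · exact ha' y h' c hy e1 e2 e6
      · rw [e6]; exact h.tri x0 x y g hx' hy'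

theorem js_base {S : Str ℕ} (h : T0S S) {z : S.M} (hz : S.zero z) :
    JS S (fun _ => True) z := by
  refine ⟨h.nz _ hz, fun a ha => ?_, fun x _ => ?_⟩
  · obtain ⟨b, c, h1, h2⟩ := h.hex a ha
    exact ⟨b, c, trivial, h1, h2⟩
  · exact ⟨z, h.nz _ hz, fun y h' c _ _ _ h4 => absurd h4 (h.ltz _ _ hz)⟩

/-- The end of the induction. -/
theorem js_end {S : Str ℕ} (h : T0S S) {B : S.M → Prop} {g : S.M} (hJ : JS S B g) :
    S.op 0 g g g g ∧ ∃ x y c, S.op 3 x y c c ∧ ¬ S.op 1 c g g g := by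
  obtain ⟨h1, h2, h3⟩ := hJ
  refine ⟨h1, ?_⟩
  obtain ⟨x, hx, e1, e2, e3⟩ := h2 g h1
  obtain ⟨a, ha, ha'⟩ := h3 x e1
  obtain ⟨m, hm, hm'⟩ := h.mx hx a (h.htn _ _ e2) ha
  obtain ⟨y, hy, f1, f2, f3⟩ := h2 m hm
  obtain ⟨f4, f5⟩ := hm' hy f3
  obtain ⟨c, hc⟩ := h.cex x y hx hy e2 f2 f4
  exact ⟨x, y, c, hc, fun hlt => ha' y hy c f1 f2 f5 hlt hc⟩

/-- The formula of the induction step is provable. -/
theorem pv_step : Pv (fun ψ => ψ ∈ T0) (.imp (Jf B0 0) (.imp (.succ 0 1)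
    (.neg (.all 40 (.all 41 (.all 42 (.neg (Jf B1 1)))))))) := by
  refine pv_of_valid closed_T0 fun S hS v => ?_
  have h := t0s_of fun ψ hψ => hS ψ hψ v
  have u : ∀ (w : ℕ → S.M) (x : ℕ) (a : S.M) (y : ℕ), upd w x a y = if y = x then a else w y :=
    fun _ _ _ _ => rfl
  simp only [Fm.sat_imp, Fm.sat_neg, Fm.sat_all, Fm.sat_succ]
  intro hJ hs
  rw [sat_Jf (B := fun a => S.op 6 a a a a) (.inl rfl) fun a _ _ w _ => Iff.rfl] at hJ
  obtain ⟨X, Y, Z, hJ'⟩ := js_step h hJ hs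
  intro hn
  refine hn X Y Z ?_
  rw [sat_Jf (B := fun y => S.op 6 y y y y ∧ (S.zero Z ∨ S.op 3 X y Y Y)) (.inr rfl)]
  · simpa [u] using hJ'
  · intro a h5 h10 w hw
    simp only [B1, B0, col, Fm.sat_and, Fm.sat_or, Fm.sat_op, Fm.sat_zero, hw 40 (by omega),
      hw 41 (by omega), hw 42 (by omega)]
    simp [u]

/-- Change of the variable. -/
theorem pv_eq : Pv (fun ψ => ψ ∈ ([] : List Fml)) (.imp (Jf B0 1) (.imp (.eq 0 1) (Jf B0 0))) := by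
  refine pv_of_valid (by simp) fun S _ v => ?_
  simp only [Fm.sat_imp, Fm.sat_eq]
  intro hJ e
  rw [sat_Jf (B := fun a => S.op 6 a a a a) (.inr rfl) fun a _ _ w _ => Iff.rfl] at hJ
  rw [sat_Jf (B := fun a => S.op 6 a a a a) (.inl rfl) fun a _ _ w _ => Iff.rfl, e]
  exact hJ

/-- The base of the induction. -/
theorem pv_base : Pv (fun ψ => ψ ∈ T0) (.imp (.zero 0) (Jf (fun _ => .imp .bot .bot) 0)) := by
  refine pv_of_valid closed_T0 fun S hS v => ?_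
  have h := t0s_of fun ψ hψ => hS ψ hψ v
  simp only [Fm.sat_imp, Fm.sat_zero]
  intro hz
  rw [sat_Jf (B := fun _ => True) (.inl rfl) fun a _ _ w _ => by simp]
  exact js_base h hz

end Pool.Agent.T9h6.BC
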