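import Pool.Agent.T9h6.BC.Dv
import Pool.Agent.TH955.J1547

/-!
# Transfer of derivations: renaming of variables, formulas for predicate symbols
-/

set_option autoImplicit false

namespace Pool.Agent.T9h6.BC

open Pool.Agent.TH672 (Fm Str upd varStr num digits LogK ReplK Sw Pv)
open Pool.Agent.TH672.Form (ren)
open Pool.Agent.TH636.BC
open Pool.Agent.TH690.J100 (subst_of_not_free freeFor_of_bd)

/-- a renaming of the variables and formulas for the predicate symbols `6`, `7`, ... (these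
symbols depend only on their first argument) -/
structure TD where
  ρ : ℕ → ℕ
  F : ℕ → ℕ → Fml

/-- the translation -/
def TD.tr (t : TD) : Fml → Fml
  | .bot => .bot
  | .eq x y => .eq (t.ρ x) (t.ρ y)
  | .zero x => .zero (t.ρ x)
  | .succ x y => .succ (t.ρ x) (t.ρ y)
  | .add x y z => .add (t.ρ x) (t.ρ y) (t.ρ z)
  | .mul x y z => .mul (t.ρ x) (t.ρ y) (t.ρ z)
  | .op i a b c d => if i < 6 then .op i (t.ρ a) (t.ρ b) (t.ρ c) (t.ρ d) else t.F i (t.ρ a)
  | .imp φ ψ => .imp (t.tr φ) (t.tr ψ)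
  | .all x φ => .all (t.ρ x) (t.tr φ)

/-- The translation is good for the variables below `N`. -/
structure TD.Ok (t : TD) (Γ : List Fml) (N k M L : ℕ) : Prop where
  inj : ∀ x < N, ∀ y < N, t.ρ x = t.ρ y → x = y
  free : ∀ i, 6 ≤ i → ∀ a < N, ∀ x < N, (t.F i (t.ρ a)).Free (t.ρ x) → x = a
  bd : ∀ i, 6 ≤ i → ∀ a < N, ∀ x < N, ¬ (t.F i (t.ρ a)).Bd (t.ρ x)
  sub : ∀ i, 6 ≤ i → ∀ a < N, ∀ y < N, (t.F i (t.ρ a)).subst (t.ρ a) (t.ρ y) = t.F i (t.ρ y)
  cong : ∀ i, 6 ≤ i → ∀ a < N, ∀ b < N, Dv Γ k M L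
    (.imp (.eq (t.ρ a) (t.ρ b)) (.imp (t.F i (t.ρ a)) (t.F i (t.ρ b))))
  cx : ∀ i, 6 ≤ i → ∀ a < N, Both k (t.F i (t.ρ a))
  szρ : ∀ x < N, t.ρ x + 1 ≤ M
  szF : ∀ i, 6 ≤ i → ∀ a < N, sz (t.F i (t.ρ a)) ≤ M

theorem TD.Ok.anti {t : TD} {Γ : List Fml} {N N' k M L : ℕ} (h : t.Ok Γ N k M L) (hN : N' ≤ N) :
    t.Ok Γ N' k M L where
  inj x hx y hy := h.inj x (hx.trans_le hN) y (hy.trans_le hN)
  free i hi a ha x hx := h.free i hi a (ha.trans_le hN) x (hx.trans_le hN)
  bd i hi a ha x hx := h.bd i hi a (ha.trans_le hN) x (hx.trans_le hN)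
  sub i hi a ha x hx := h.sub i hi a (ha.trans_le hN) x (hx.trans_le hN)
  cong i hi a ha x hx := h.cong i hi a (ha.trans_le hN) x (hx.trans_le hN)
  cx i hi a ha := h.cx i hi a (ha.trans_le hN)
  szρ a ha := h.szρ a (ha.trans_le hN)
  szF i hi a ha := h.szF i hi a (ha.trans_le hN)

variable {t : TD} {Γ : List Fml} {N k M L : ℕ}

theorem sz_tr (h : t.Ok Γ N k M L) (hM : 1 ≤ M) : ∀ {φ : Fml}, Vlt N φ →
    sz (t.tr φ) ≤ sz φ * M := by
  intro φ
  induction φ with
  | bot => intro _; simp [TD.tr]; omega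
  | eq x y =>
    intro hv
    have h1 := h.szρ x hv.1
    have h2 := h.szρ y hv.2
    simp only [TD.tr, sz_eq]; nlinarith
  | zero x =>
    intro hv
    have h1 := h.szρ x hv
    simp only [TD.tr, sz_zero]; nlinarith
  | succ x y =>
    intro hv
    have h1 := h.szρ x hv.1
    have h2 := h.szρ y hv.2
    simp only [TD.tr, sz_succ]; nlinarith
  | add x y z =>
    intro hv
    have h1 := h.szρ x hv.1
    have h2 := h.szρ y hv.2.1
    have h3 := h.szρ z hv.2.2
    simp only [TD.tr, sz_add]; nlinarith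
  | mul x y z =>
    intro hv
    have h1 := h.szρ x hv.1
    have h2 := h.szρ y hv.2.1
    have h3 := h.szρ z hv.2.2
    simp only [TD.tr, sz_mul]; nlinarith
  | op i a b c d =>
    intro hv
    simp only [TD.tr]
    split_ifs with hi
    · have h1 := h.szρ a hv.1
      have h2 := h.szρ b hv.2.1
      have h3 := h.szρ c hv.2.2.1
      have h4 := h.szρ d hv.2.2.2
      simp only [sz_op]; nlinarith
    · have h1 := h.szF i (by omega) a hv.1
      simp only [sz_op]; nlinarith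
  | imp φ ψ ih1 ih2 =>
    intro hv
    have h1 := ih1 hv.1
    have h2 := ih2 hv.2
    simp only [TD.tr, sz_imp]; nlinarith
  | all x φ ih =>
    intro hv
    have h1 := ih hv.2
    have h2 := h.szρ x hv.1
    simp only [TD.tr, sz_all]; nlinarith

theorem both_tr (h : t.Ok Γ N k M L) : ∀ {φ : Fml}, Vlt N φ → Both (k + qd φ) (t.tr φ) := by
  intro φ
  induction φ with
  | bot => exact fun _ s => .bot s _
  | eq x y => exact fun _ s => .eq s _ _ _
  | zero x => exact fun _ s => .zero s _ _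
  | succ x y => exact fun _ s => .succ s _ _ _
  | add x y z => exact fun _ s => .add s _ _ _ _
  | mul x y z => exact fun _ s => .mul s _ _ _ _
  | op i a b c d =>
    intro hv
    simp only [TD.tr]
    split_ifs with hi
    · exact fun s => .op s _ _ _ _ _ _
    · exact h.cx i (by omega) a hv.1
  | imp φ ψ ih1 ih2 =>
    intro hv
    exact ((ih1 hv.1).mono (by simp [qd])).imp ((ih2 hv.2).mono (by simp [qd]))
  | all x φ ih => intro hv; exact (ih hv.2).all _

theorem tr_free (h : t.Ok Γ N k M L) {x : ℕ} (hx : x < N) : ∀ {φ : Fml}, Vlt N φ →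
    (t.tr φ).Free (t.ρ x) → φ.Free x := by
  intro φ
  induction φ with
  | bot => exact fun _ h => h
  | eq u v =>
    rintro ⟨h1, h2⟩ (h3 | h3)
    · exact .inl (h.inj _ hx _ h1 h3)
    · exact .inr (h.inj _ hx _ h2 h3)
  | zero u => intro h1 h3; exact h.inj _ hx _ h1 h3
  | succ u v =>
    rintro ⟨h1, h2⟩ (h3 | h3)
    · exact .inl (h.inj _ hx _ h1 h3)
    · exact .inr (h.inj _ hx _ h2 h3)
  | add u v w =>
    rintro ⟨h1, h2, h4⟩ (h3 | h3 | h3)
    · exact .inl (h.inj _ hx _ h1 h3)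
    · exact .inr (.inl (h.inj _ hx _ h2 h3))
    · exact .inr (.inr (h.inj _ hx _ h4 h3))
  | mul u v w =>
    rintro ⟨h1, h2, h4⟩ (h3 | h3 | h3)
    · exact .inl (h.inj _ hx _ h1 h3)
    · exact .inr (.inl (h.inj _ hx _ h2 h3))
    · exact .inr (.inr (h.inj _ hx _ h4 h3))
  | op i a b c d =>
    rintro ⟨h1, h2, h4, h5⟩ h3
    simp only [TD.tr] at h3
    split_ifs at h3 with hi
    · rcases h3 with h3 | h3 | h3 | h3
      · exact .inl (h.inj _ hx _ h1 h3)
      · exact .inr (.inl (h.inj _ hx _ h2 h3))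
      · exact .inr (.inr (.inl (h.inj _ hx _ h4 h3)))
      · exact .inr (.inr (.inr (h.inj _ hx _ h5 h3)))
    · exact .inl (h.free i (by omega) a h1 x hx h3)
  | imp φ ψ ih1 ih2 =>
    rintro ⟨h1, h2⟩ (h3 | h3)
    · exact .inl (ih1 h1 h3)
    · exact .inr (ih2 h2 h3)
  | all u φ ih =>
    rintro ⟨h1, h2⟩ ⟨h3, h4⟩
    exact ⟨fun e => h3 (by rw [e]), ih h2 h4⟩

theorem tr_ren (h : t.Ok Γ N k M L) {x y u : ℕ} (hx : x < N) (hu : u < N) :
    ren (t.ρ x) (t.ρ y) (t.ρ u) = t.ρ (ren x y u) := by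
  unfold ren
  by_cases e : u = x
  · rw [if_pos e, if_pos (by rw [e])]
  · rw [if_neg e, if_neg fun e' => e (h.inj _ hu _ hx e')]

theorem tr_subst (h : t.Ok Γ N k M L) {x y : ℕ} (hx : x < N) (hy : y < N) : ∀ {φ : Fml},
    Vlt N φ → t.tr (φ.subst x y) = (t.tr φ).subst (t.ρ x) (t.ρ y) := by
  intro φ
  induction φ with
  | bot => exact fun _ => rfl
  | eq u v => intro hv; simp only [TD.tr, Fm.subst, tr_ren h hx hv.1, tr_ren h hx hv.2]
  | zero u =>
    intro hv
    have hv' : u < N := hv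
    simp only [TD.tr, Fm.subst, tr_ren h hx hv']
  | succ u v => intro hv; simp only [TD.tr, Fm.subst, tr_ren h hx hv.1, tr_ren h hx hv.2]
  | add u v w =>
    intro hv
    simp only [TD.tr, Fm.subst, tr_ren h hx hv.1, tr_ren h hx hv.2.1, tr_ren h hx hv.2.2]
  | mul u v w =>
    intro hv
    simp only [TD.tr, Fm.subst, tr_ren h hx hv.1, tr_ren h hx hv.2.1, tr_ren h hx hv.2.2]
  | op i a b c d =>
    intro hv
    simp only [TD.tr, Fm.subst]
    split_ifs with hi
    · simp only [Fm.subst, tr_ren h hx hv.1, tr_ren h hx hv.2.1, tr_ren h hx hv.2.2.1,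
        tr_ren h hx hv.2.2.2]
    · by_cases e : a = x
      · subst e
        rw [h.sub i (by omega) a hx y hy]
        simp [ren]
      · rw [subst_of_not_free fun hf => e (h.free i (by omega) a hv.1 x hx hf).symm]
        simp [ren, e]
  | imp φ ψ ih1 ih2 => intro hv; simp only [TD.tr, Fm.subst, ih1 hv.1, ih2 hv.2]
  | all u φ ih =>
    intro hv
    simp only [Fm.subst]
    by_cases e : u = x
    · subst e; simp only [TD.tr, Fm.subst, if_true]
    · rw [if_neg e]
      simp only [TD.tr, Fm.subst]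
      rw [if_neg fun e' => e (h.inj _ hv.1 _ hx e'), ih hv.2]

theorem tr_freeFor (h : t.Ok Γ N k M L) {x y : ℕ} (hx : x < N) (hy : y < N) : ∀ {φ : Fml},
    Vlt N φ → φ.FreeFor y x → (t.tr φ).FreeFor (t.ρ y) (t.ρ x) := by
  intro φ
  induction φ with
  | imp φ ψ ih1 ih2 => exact fun hv hf => ⟨ih1 hv.1 hf.1, ih2 hv.2 hf.2⟩
  | all u φ ih =>
    intro hv hf
    rcases hf with hf | hf | hf
    · exact .inl (by rw [hf])
    · exact .inr (.inl fun hh => hf (tr_free h hx hv.2 hh))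
    · exact .inr (.inr ⟨fun e => hf.1 (h.inj _ hv.1 _ hy e), ih hv.2 hf.2⟩)
  | op i a b c d =>
    intro hv _
    simp only [TD.tr]
    split_ifs with hi
    · trivial
    · exact freeFor_of_bd (h.bd i (by omega) a hv.1 y hy)
  | _ => exact fun _ _ => trivial

theorem tr_sw {x y u u' : ℕ} (h : Sw x y u u') : Sw (t.ρ x) (t.ρ y) (t.ρ u) (t.ρ u') := by
  rcases h with h | ⟨h1, h2⟩
  · exact .inl (by rw [h])
  · exact .inr ⟨by rw [h1], by rw [h2]⟩

/-- The transfer of a logical axiom. -/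
theorem tr_log (h : t.Ok Γ N k M L) (hM : 1 ≤ M) (hL : 1 ≤ L) {φ : Fml} (hv : Vlt N φ)
    (hsz : sz φ ≤ N) (hl : LogK φ) :
    Dv Γ (k + qd φ) ((30 * sz φ + 32) * M) (7 * L) (t.tr φ) := by
  have p := sz_pos φ
  have g : Gd (k + qd φ) ((30 * sz φ + 32) * M) (t.tr φ) :=
    ⟨(sz_tr h hM hv).trans (Nat.mul_le_mul_right _ (by omega)), both_tr h hv false⟩
  have hlog : LogK (t.tr φ) → Dv Γ (k + qd φ) ((30 * sz φ + 32) * M) (7 * L) (t.tr φ) :=
    fun hh => (Dv.log hh g).mono le_rfl le_rfl (by omega)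
  cases hl with
  | k φ ψ => exact hlog (.k _ _)
  | s φ ψ χ => exact hlog (.s _ _ _)
  | dn φ => exact hlog (.dn _)
  | inst x y φ hf =>
    have hx : x < N := hv.1.1
    by_cases hy : y < N
    · refine hlog ?_
      simp only [TD.tr]
      rw [tr_subst h hx hy hv.1.2]
      exact .inst _ _ _ (tr_freeFor h hx hy hv.1.2 hf)
    · -- then `x` is not free
      have hnf : ¬ φ.Free x := fun hxf => hy (by
        have := Pool.Agent.TH955.J1547.free_subst x y φ hxf hf
        exact lt_of_free hv.2 this)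
      refine hlog ?_
      simp only [TD.tr]
      rw [subst_of_not_free hnf]
      have h1 : ¬ (t.tr φ).Free (t.ρ x) := fun hh => hnf (tr_free h hx hv.1.2 hh)
      have h2 := LogK.inst (t.ρ x) (t.ρ x) (t.tr φ) (by
        have : ∀ {χ : Fml}, ¬ χ.Free (t.ρ x) → χ.FreeFor (t.ρ x) (t.ρ x) := by
          intro χ
          induction χ with
          | imp a b iha ihb =>
            intro hh
            exact ⟨iha fun e => hh (.inl e), ihb fun e => hh (.inr e)⟩
          | all u a iha =>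
            intro hh
            by_cases e : u = t.ρ x
            · exact .inl e
            · exact .inr (.inl fun e' => hh ⟨fun e'' => e e''.symm, e'⟩)
          | _ => exact fun _ => trivial
        exact this h1)
      rw [subst_of_not_free h1] at h2
      exact h2
  | dist x φ ψ hf =>
    refine hlog (.dist _ _ _ fun hh => hf (tr_free h hv.1.1 hv.1.2.1 hh))
  | refl x => exact hlog (.refl _)
  | repl x y φ ψ hr =>
    have hx : x < N := hv.1.1
    have hy : y < N := hv.1.2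
    cases hr with
    | eq h1 h2 => exact hlog (.repl _ _ _ _ (.eq (tr_sw h1) (tr_sw h2)))
    | zero h1 => exact hlog (.repl _ _ _ _ (.zero (tr_sw h1)))
    | succ h1 h2 => exact hlog (.repl _ _ _ _ (.succ (tr_sw h1) (tr_sw h2)))
    | add h1 h2 h3 => exact hlog (.repl _ _ _ _ (.add (tr_sw h1) (tr_sw h2) (tr_sw h3)))
    | mul h1 h2 h3 => exact hlog (.repl _ _ _ _ (.mul (tr_sw h1) (tr_sw h2) (tr_sw h3)))
    | @op i a b c d a' b' c' d' h1 h2 h3 h4 =>
      by_cases hi : i < 6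
      · refine hlog ?_
        simp only [TD.tr, if_pos hi]
        exact .repl _ _ _ _ (.op (tr_sw h1) (tr_sw h2) (tr_sw h3) (tr_sw h4))
      · simp only [TD.tr, if_neg hi]
        have ha : a < N := hv.2.1.1
        rcases h1 with rfl | ⟨rfl, rfl⟩
        · have c1 : Both k (.eq (t.ρ x) (t.ρ y)) := fun s => .eq s _ _ _
          have s1 := h.szρ x hx
          have s2 := h.szρ y hy
          have s3 := h.szF i (by omega) _ ha
          refine (Dv.kid Γ c1 (h.cx i (by omega) _ ha)).mono (by omega) ?_ (by omega)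
          simp only [sz_eq]
          have : 30 * sz (Fm.imp (.eq x y) (.imp (.op i a' b c d) (.op i a' b' c' d'))) ≥
            30 * 30 := by simp; omega
          nlinarith
        · refine (h.cong i (by omega) _ hx _ hy).mono (by omega) ?_ (by omega)
          nlinarith

/-- The transfer theorem. -/
theorem transfer {T : List Fml} {φ : Fml} (h : Pv (fun ψ => ψ ∈ T) φ) :
    ∃ C N, Vlt N φ ∧ ∀ (t : TD) (Γ : List Fml) (k M L : ℕ), t.Ok Γ N k M L → 1 ≤ M → 1 ≤ L →
      (∀ ψ ∈ T, t.tr ψ ∈ Γ) → Dv Γ (k + C) (C * M) (C * L) (t.tr φ) := by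
  induction h with
  | @ax φ h =>
    refine ⟨qd φ + sz φ, sz φ, vlt_sz φ, fun t Γ k M L ht hM hL hT => ?_⟩
    have p := sz_pos φ
    refine (Dv.ax (hT φ h) ⟨(sz_tr ht hM (vlt_sz φ)).trans (Nat.mul_le_mul_right _ (by omega)),
      ((both_tr ht (vlt_sz φ)) false).mono (by omega)⟩).mono le_rfl le_rfl ?_
    nlinarith
  | @log φ h =>
    refine ⟨qd φ + (30 * sz φ + 32), sz φ, vlt_sz φ, fun t Γ k M L ht hM hL hT => ?_⟩
    refine (tr_log ht hM hL (vlt_sz φ) le_rfl h).mono (by omega)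
      (Nat.mul_le_mul_right _ (by omega)) (Nat.mul_le_mul_right _ (by omega))
  | @mp φ ψ _ _ ih1 ih2 =>
    obtain ⟨C1, N1, v1, h1⟩ := ih1
    obtain ⟨C2, N2, v2, h2⟩ := ih2
    refine ⟨C1 + C2 + 1, max N1 N2, Vlt.mono (le_max_left _ _) v1.2,
      fun t Γ k M L ht hM hL hT => ?_⟩
    have e1 := h1 t Γ k M L (ht.anti (le_max_left _ _)) hM hL hT
    have e2 := h2 t Γ k M L (ht.anti (le_max_right _ _)) hM hL hT
    have e3 := (e1.mono (k' := k + (C1 + C2 + 1)) (B' := (C1 + C2 + 1) * M) (by omega)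
      (Nat.mul_le_mul_right _ (by omega)) le_rfl).mp (e2.mono (by omega)
      (Nat.mul_le_mul_right _ (by omega)) le_rfl)
    exact e3.mono le_rfl le_rfl (by nlinarith)
  | @gen φ x _ ih =>
    obtain ⟨C, N, v, h⟩ := ih
    refine ⟨C + 10, max N (x + 1), ⟨by omega, Vlt.mono (le_max_left _ _) v⟩,
      fun t Γ k M L ht hM hL hT => ?_⟩
    have e := h t Γ k M L (ht.anti (le_max_left _ _)) hM hL hT
    have s1 := ht.szρ x (by omega)
    have s2 := e.gd.sz
    refine ((e.mono (k' := k + (C + 10)) (B' := (C + 10) * M) (by omega)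
      (Nat.mul_le_mul_right _ (by omega)) le_rfl).gen (t.ρ x) (by omega) ?_).mono le_rfl le_rfl
      (by nlinarith)
    rw [sz_all]
    nlinarith

end Pool.Agent.T9h6.BC
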