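import Pool.Agent.T9h6.BC.Prop

/-!
# The formulas `Uf` and `Jf`
-/

set_option autoImplicit false

namespace Pool.Agent.T9h6.BC

open Pool.Agent.TH672 (Fm Str upd varStr num digits LogK ReplK Sw Pv)
open Pool.Agent.TH672.Form (ren)
open Pool.Agent.TH636.BC
open Pool.Agent.TH690.J100 (subst_of_not_free freeFor_of_bd completeness)
open Pool.Agent.TH838.J1549 (sat_cong)

/-- The formula `a ∈ X`, where `X` is given by `c` triples of parameters. -/
def Uf (N0 : ℕ) : ℕ → ℕ → Fml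
  | 0, _ => .imp .bot .bot
  | c + 1, a => .and (Uf N0 c a)
      (.or (.zero (N0 + 3 * c + 2)) (col (N0 + 3 * c) a (N0 + 3 * c + 1)))

theorem both_Uf {k : ℕ} (N0 a : ℕ) : ∀ c, Both k (Uf N0 c a)
  | 0 => Both.bot.imp .bot
  | c + 1 => (both_Uf N0 a c).and (Both.or (fun s => .zero s _ _) (fun s => .op s _ _ _ _ _ _))

theorem free_Uf {N0 a x : ℕ} : ∀ {c : ℕ}, (Uf N0 c a).Free x → x = a ∨ (N0 ≤ x ∧ x < N0 + 3 * c)
  | 0, h => by simp only [Uf, Fm.Free, or_self] at h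
  | c + 1, h => by
    simp only [Uf, Fm.and, Fm.or, Fm.neg, Fm.Free, col, or_false] at h
    rcases h with h | h | h | h | h | h
    · rcases free_Uf h with h | h
      · exact .inl h
      · exact .inr (by omega)
    · exact .inr (by omega)
    · exact .inr (by omega)
    · exact .inl h
    · exact .inr (by omega)
    · exact .inr (by omega)

theorem bd_Uf {N0 a x : ℕ} : ∀ {c : ℕ}, ¬ (Uf N0 c a).Bd x
  | 0 => by simp [Uf, Fm.Bd]
  | c + 1 => by
    have := bd_Uf (N0 := N0) (a := a) (x := x) (c := c)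
    simp only [Uf, Fm.and, Fm.or, Fm.neg, Fm.Bd, col, or_false]
    tauto

theorem subst_Uf {N0 a y : ℕ} : ∀ {c : ℕ}, ¬ (N0 ≤ a ∧ a < N0 + 3 * c) →
    (Uf N0 c a).subst a y = Uf N0 c y
  | 0, _ => rfl
  | c + 1, h => by
    have e1 : ren a y (N0 + 3 * c + 2) = N0 + 3 * c + 2 := if_neg (by omega)
    have e2 : ren a y (N0 + 3 * c) = N0 + 3 * c := if_neg (by omega)
    have e3 : ren a y (N0 + 3 * c + 1) = N0 + 3 * c + 1 := if_neg (by omega)
    have e4 : ren a y a = y := if_pos rfl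
    simp only [Uf, Fm.and, Fm.or, Fm.neg, Fm.subst, col, e1, e2, e3, e4,
      subst_Uf (c := c) (a := a) (y := y) (N0 := N0) (by omega)]

theorem sz_Uf (N0 a : ℕ) : ∀ c n, c ≤ n → sz (Uf N0 c a) ≤ 12 + c * (4 * N0 + 12 * n + a + 80)
  | 0, n, _ => by simp [Uf]
  | c + 1, n, h => by
    have := sz_Uf N0 a c n (by omega)
    simp only [Uf, col, sz_and, sz_or, sz_zero, sz_op]
    nlinarith

/-- The bound for the length. -/
def MU (N0 n : ℕ) : ℕ := (100 + 100 * N0) * (n + 1) ^ 2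

theorem sz_Uf_le {N0 a c n : ℕ} (hc : c ≤ n) (ha : a ≤ N0 + 3 * n + 3) :
    sz (Uf N0 c a) ≤ MU N0 n := by
  refine (sz_Uf N0 a c n hc).trans ?_
  unfold MU
  have h1 : c * (4 * N0 + 12 * n + a + 80) ≤ n * (5 * N0 + 15 * n + 83) :=
    Nat.mul_le_mul hc (by omega)
  have h2 : 12 + n * (5 * N0 + 15 * n + 83) ≤ (100 + 100 * N0) * (n + 1) ^ 2 := by
    nlinarith [Nat.zero_le (N0 * n ^ 2), Nat.zero_le (N0 * n)]
  omega

theorem MU_pos (N0 n : ℕ) : 100 ≤ MU N0 n := by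
  unfold MU
  nlinarith [Nat.zero_le (N0 * n ^ 2), Nat.zero_le (N0 * n), Nat.zero_le (n ^ 2)]

theorem le_MU {N0 n : ℕ} : N0 + 3 * n + 4 ≤ MU N0 n := by
  unfold MU
  nlinarith [Nat.zero_le (N0 * n ^ 2), Nat.zero_le (N0 * n), Nat.zero_le (n ^ 2)]

/-- Congruence. -/
theorem exists_cong : ∃ C, 1 ≤ C ∧ ∀ (Γ : List Fml) (N0 n c a b : ℕ), c ≤ n →
    a ≤ N0 + 3 * n + 3 → b ≤ N0 + 3 * n + 3 →
    Dv Γ C (C * MU N0 n) (C * (c + 1)) (.imp (.eq a b) (.imp (Uf N0 c a) (Uf N0 c b))) := by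
  obtain ⟨C, hC1, hC⟩ := rule_cong
  refine ⟨5 * C + 100, by omega, fun Γ N0 n c a b hc ha hb => ?_⟩
  have hM := MU_pos N0 n
  have hM' := le_MU (N0 := N0) (n := n)
  induction c with
  | zero =>
    refine (Dv.kid Γ (k := 0) (fun s => .eq s _ _ _) (Both.bot.imp .bot)).mono (by omega) ?_
      (by omega)
    simp only [sz_eq, sz_imp, sz_bot]
    nlinarith [Nat.zero_le (C * MU N0 n)]
  | succ c ih =>
    have ih := ih (by omega)
    have s1 : sz (Fm.eq a b : Fml) ≤ 3 * MU N0 n := by simp only [sz_eq]; omega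
    have s2 : sz (Uf N0 c a) ≤ 3 * MU N0 n := by
      have := sz_Uf_le (N0 := N0) (a := a) (c := c) (n := n) (by omega) ha; omega
    have s3 : sz (Uf N0 c b) ≤ 3 * MU N0 n := by
      have := sz_Uf_le (N0 := N0) (a := b) (c := c) (n := n) (by omega) hb; omega
    have s4 : sz (col (N0 + 3 * c) a (N0 + 3 * c + 1)) ≤ 4 * MU N0 n + 20 := by
      simp only [col, sz_op]; omega
    have s5 : sz (col (N0 + 3 * c) b (N0 + 3 * c + 1)) ≤ 4 * MU N0 n + 20 := by
      simp only [col, sz_op]; omega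
    have s6 : sz (Fm.zero (N0 + 3 * c + 2) : Fml) ≤ 4 * MU N0 n + 20 := by
      simp only [sz_zero]; omega
    have r := hC Γ 0 (4 * MU N0 n + 20) (.eq a b) (Uf N0 c a) (Uf N0 c b)
      (col (N0 + 3 * c) a (N0 + 3 * c + 1)) (col (N0 + 3 * c) b (N0 + 3 * c + 1))
      (.zero (N0 + 3 * c + 2)) (fun s => .eq s _ _ _) (both_Uf _ _ _) (both_Uf _ _ _)
      (fun s => .op s _ _ _ _ _ _) (fun s => .op s _ _ _ _ _ _) (fun s => .zero s _ _)
      (by omega) (by omega) (by omega) s4 s5 s6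
    have q : Dv Γ (5 * C + 100) ((5 * C + 100) * MU N0 n) 1 (.imp (.eq a b)
        (.imp (col (N0 + 3 * c) a (N0 + 3 * c + 1)) (col (N0 + 3 * c) b (N0 + 3 * c + 1)))) := by
      refine .log (.repl _ _ _ _ (.op (.inl rfl) (.inr ⟨rfl, rfl⟩) (.inl rfl) (.inl rfl))) ⟨?_, ?_⟩
      · simp only [sz_imp, sz_eq, col, sz_op]; nlinarith [Nat.zero_le (C * MU N0 n)]
      · exact Both.imp (fun s => .eq s _ _ _) (Both.imp (fun s => .op s _ _ _ _ _ _)
          (fun s => .op s _ _ _ _ _ _)) false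
    have r' := r.mono (k' := 5 * C + 100) (B' := (5 * C + 100) * MU N0 n) (L' := C)
      (by omega) (by nlinarith [Nat.mul_le_mul_left C hM]) le_rfl
    have := (r'.mp ih).mp q
    exact this.mono le_rfl le_rfl (by nlinarith)

/-- The induction formula. -/
def Jf (U : ℕ → Fml) (g : ℕ) : Fml :=
  .and (nat g) (.and
    (.all 5 (.imp (nat 5) (.ex 6 (.ex 7 (.and (U 6) (.and (ht 6 7) (lt 5 7)))))))
    (.all 10 (.imp (.eq 10 g) (.all 5 (.imp (U 5) (.ex 6 (.and (nat 6)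
      (.all 7 (.all 8 (.all 9 (.imp (U 7) (.imp (ht 7 8) (.imp (lt 6 8) (.imp (lt 9 10)
        (.neg (col 5 7 9))))))))))))))))

/-- The semantics of the induction formula. -/
def JS (S : Str ℕ) (B : S.M → Prop) (g : S.M) : Prop :=
  S.op 0 g g g g ∧ (∀ h, S.op 0 h h h h → ∃ y h', B y ∧ S.op 2 y h' h' h' ∧ S.op 1 h h' h' h') ∧
    ∀ x, B x → ∃ h, S.op 0 h h h h ∧ ∀ y h' c, B y → S.op 2 y h' h' h' → S.op 1 h h' h' h' →
      S.op 1 c g g g → ¬ S.op 3 x y c c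

theorem sat_Jf {S : Str ℕ} {v : ℕ → S.M} {U : ℕ → Fml} {B : S.M → Prop} {g : ℕ}
    (hg : g = 0 ∨ g = 1)
    (hU : ∀ a, 5 ≤ a → a ≤ 10 → ∀ w : ℕ → S.M, (∀ i, 10 < i → w i = v i) →
      (Fm.Sat S (U a) w ↔ B (w a))) :
    Fm.Sat S (Jf U g) v ↔ JS S B (v g) := by
  have u : ∀ (w : ℕ → S.M) (x : ℕ) (a : S.M) (y : ℕ), upd w x a y = if y = x then a else w y :=
    fun _ _ _ _ => rfl
  have e1 : ∀ a b c : S.M, Fm.Sat S (U 6) (upd (upd (upd v 5 a) 6 b) 7 c) ↔ B b := by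
    intro a b c
    rw [hU 6 (by omega) (by omega) _ fun i hi => ?_]
    · simp [upd]
    · simp only [u]; rw [if_neg (by omega), if_neg (by omega), if_neg (by omega)]
  have e2 : ∀ a b : S.M, Fm.Sat S (U 5) (upd (upd v 10 a) 5 b) ↔ B b := by
    intro a b
    rw [hU 5 (by omega) (by omega) _ fun i hi => ?_]
    · simp [u]
    · simp only [u]; rw [if_neg (by omega), if_neg (by omega)]
  have e3 : ∀ a b c d e f : S.M, Fm.Sat S (U 7)
      (upd (upd (upd (upd (upd (upd v 10 a) 5 b) 6 c) 7 d) 8 e) 9 f) ↔ B d := by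
    intro a b c d e f
    rw [hU 7 (by omega) (by omega) _ fun i hi => ?_]
    · simp [u]
    · simp only [u]
      rw [if_neg (by omega), if_neg (by omega), if_neg (by omega), if_neg (by omega),
        if_neg (by omega), if_neg (by omega)]
  have hg10 : g ≠ 10 := by omega
  simp only [Jf, JS, nat, ht, lt, col, Fm.sat_and, Fm.sat_all, Fm.sat_imp, Fm.sat_ex, Fm.sat_op,
    Fm.sat_eq, Fm.sat_neg, e1, e2, e3]
  simp only [u]
  norm_num [hg10]

end Pool.Agent.T9h6.BC
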