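import Pool.Agent.T9h6.BC.End2
import Pool.Agent.T9h6.BC.Ind

/-!
# The short derivations
-/

set_option autoImplicit false

namespace Pool.Agent.T9h6.BC

open Pool.Agent.TH672 (Fm Str upd varStr num digits LogK ReplK Sw Pv)
open Pool.Agent.TH672.Form (ren)
open Pool.Agent.TH636.BC
open Pool.Agent.TH838.J1549 (sat_cong sat_inst free_inst Q exists_Q closed_robinson free_iter)

/-- no placeholders -/
def NoPl : Fml → Prop
  | .op i _ _ _ _ => i < 6
  | .imp φ ψ => NoPl φ ∧ NoPl ψ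
  | .all _ φ => NoPl φ
  | _ => True

theorem noPl_arith : ∀ {φ : Fml}, Arith φ → NoPl φ := by
  intro φ
  induction φ with
  | op i a b c d => exact fun h => h.elim
  | imp φ ψ ih1 ih2 => exact fun h => ⟨ih1 h.1, ih2 h.2⟩
  | all x φ ih => exact fun h => ih h
  | _ => exact fun _ => trivial

theorem noPl_iter {φ : Fml} (h : NoPl φ) : ∀ n, NoPl (blk^[n] φ)
  | 0 => h
  | n + 1 => by
    rw [Function.iterate_succ_apply']
    exact ⟨trivial, trivial, noPl_iter h n⟩

theorem noPl_inst {φ : Fml} {x n : ℕ} (h : NoPl φ) : NoPl (inst x n φ) :=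
  ⟨trivial, noPl_iter (φ := .all x (.imp (.eq x 0) φ)) ⟨trivial, h⟩ n⟩

theorem tdI_noPl {N0 c : ℕ} : ∀ {φ : Fml}, NoPl φ → (tdI N0 c).tr φ = φ := by
  intro φ
  induction φ with
  | op i a b c d =>
    intro h
    have h' : i < 6 := h
    simp only [TD.tr, if_pos h']
    rfl
  | imp φ ψ ih1 ih2 =>
    intro h
    simp only [TD.tr, ih1 h.1, ih2 h.2]
  | all x φ ih =>
    intro h
    simp only [TD.tr, ih h]
    rfl
  | _ => exact fun _ => rfl

theorem noPl_Ax {P : Fml} (hA : Arith P) : ∀ ψ ∈ Ax P, NoPl ψ := by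
  have e4 : NoPl (inst 4 (code [Fm.bot]) P.neg) := noPl_inst ⟨noPl_arith hA, trivial⟩
  have ea : ∀ {σ : List Bool} {ψ : Fml}, NoPl ψ → NoPl (appn σ ψ) := fun h =>
    noPl_inst (noPl_inst ⟨trivial, trivial, h⟩)
  have eEf : ∀ {a b : ℕ}, NoPl (Ef a b) := fun {a b} => show 4 < 6 by omega
  have eCf : ∀ {a b c : ℕ}, NoPl (Cf a b c) := fun {a b c} => show 5 < 6 by omega
  have e17 : NoPl (inst 17 (num hd) (Ef 15 17)) := noPl_inst eEf
  have e2 : NoPl (appn bs (Ef 19 27)) := ea eEf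
  have e3 : NoPl (appn tl (Cf 15 19 27)) := ea eCf
  have esg : NoPl (sgf P) := by
    refine ⟨eCf, show 0 < 6 by omega, show 3 < 6 by omega, ⟨show 1 < 6 by omega, trivial⟩, ?_⟩
    exact e4
  have esg' : NoPl (sg P) := noPl_inst esg
  intro ψ hψ
  simp only [Ax, TB, List.mem_cons, List.mem_append] at hψ
  rcases hψ with rfl | (hψ | hψ) | hψ
  · exact esg'
  · simp only [robinson, List.mem_cons, List.not_mem_nil, or_false] at hψ
    rcases hψ with rfl | rfl | rfl | rfl | rfl | rfl | rfl | rfl | rfl | rfl | rfl | rfl | rfl |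
      rfl | rfl <;> simp [NoPl, Fm.ex, Fm.neg, Fm.or]
  · simp only [T0, List.mem_cons, List.not_mem_nil, or_false] at hψ
    rcases hψ with rfl | rfl | rfl | rfl | rfl | rfl | rfl | rfl | rfl | rfl | rfl | rfl <;>
      simp [NoPl, Fm.ex, Fm.neg, Fm.or, Fm.and, nat, lt, ht, col]
  · simp only [TE, List.mem_cons, List.not_mem_nil, or_false] at hψ
    rcases hψ with rfl | rfl | rfl | rfl | rfl
    · exact ⟨trivial, e17⟩
    · exact ⟨eEf, trivial, e2⟩
    · exact ⟨eEf, trivial, e3⟩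
    · exact ⟨eCf, trivial, trivial, trivial, trivial, eCf⟩
    · exact ⟨eCf, trivial, trivial, trivial, trivial, trivial, trivial, eCf⟩

theorem sz_blk (ψ : Fml) : sz (blk ψ) = sz ψ + 33 := by
  simp only [blk, sz_all, sz_imp, sz_succ, sz_eq]
  omega

theorem sz_iter (ψ : Fml) : ∀ j, sz (blk^[j] ψ) = sz ψ + 33 * j
  | 0 => rfl
  | j + 1 => by rw [Function.iterate_succ_apply', sz_blk, sz_iter ψ j]; ring

theorem cx_iter {k : ℕ} {W : Fml} (hk : 1 ≤ k) (h : Cx false k W) : ∀ j, Cx false k (blk^[j] W)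
  | 0 => h
  | j + 1 => by
    rw [Function.iterate_succ_apply']
    exact cx_blk hk (cx_iter hk h j)

theorem length_strs {B : ℕ} : ∀ {π : List Fml}, (∀ ψ ∈ π, sz ψ ≤ B) →
    (strs π).length ≤ π.length * B
  | [], _ => by simp [strs]
  | φ :: π, h => by
    have h1 := length_strs (π := π) fun ψ hψ => h ψ (List.mem_cons_of_mem _ hψ)
    have h2 := h φ (List.mem_cons_self ..)
    have h3 : strs (φ :: π) = str φ ++ strs π := rfl
    rw [h3, List.length_append, List.length_cons]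
    unfold sz at h2
    nlinarith

/-- The theory proves the finite consistency statements by short derivations of bounded
complexity. -/
theorem upper {P : Fml} (hP : Fr P) (hA : Arith P) :
    ∃ k C, ∀ n, ∃ π, IsProof (Ax P) (conAt P (Ax P) n :: π) ∧
      (strs (conAt P (Ax P) n :: π)).length ≤ C * (n + 1) ^ 4 ∧
      ∀ ψ ∈ conAt P (Ax P) n :: π, Cx true k ψ := by
  obtain ⟨C, N1, hC1, hN1, hstep⟩ := exists_step
  obtain ⟨CI, hCI, hI⟩ := exists_tdI
  obtain ⟨Ce, Ne, -, he⟩ := transfer (pv_end hP)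
  obtain ⟨Cb, Nb, -, hb⟩ := transfer pv_base
  obtain ⟨Cs, hCs, hs⟩ := rule_syl
  obtain ⟨Ψ, hΨ⟩ : ∃ Ψ : Fml, Ψ = .all 3 (.imp (.eq 3 0) (con P (Ax P))) := ⟨_, rfl⟩
  obtain ⟨N0, hN0⟩ : ∃ N0, N0 = N1 + Ne + Nb := ⟨_, rfl⟩
  obtain ⟨k, hk⟩ : ∃ k, k = 12 + qd Ψ + CI + Ce + Cb + Cs := ⟨_, rfl⟩
  have hcon : ∀ n, conAt P (Ax P) n = .all 0 (.imp (.zero 0) (blk^[n] Ψ)) := fun n => by
    rw [hΨ]; rfl
  have hΨf : ∀ x, N0 ≤ x → ¬ Ψ.Free x := fun x hx hf => by
    rw [hΨ] at hf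
    obtain ⟨h1, (h2 | h2) | h2⟩ := hf
    · omega
    · omega
    · have h3 := free_inst h2
      have h4 := free_inst h3.2.2
      have h5 := hP.neg x h4.2.2
      omega
  have hWf : ∀ j x, N0 ≤ x → ¬ (blk^[j] Ψ).Free x := fun j x hx hf => by
    rcases free_iter j hf with h | h
    · omega
    · exact hΨf x hx h
  have hΨc : Cx false k Ψ := (both_qd Ψ false).mono (by omega)
  obtain ⟨D, hD⟩ : ∃ D, D = Ce * CI + Cb * CI + Cs + 1 := ⟨_, rfl⟩
  -- the derivations
  have main : ∀ n : ℕ, Dv (Ax P) (k + C + Cs + 1) (C * (20 * D * (sz Ψ + 33 * n + MU N0 n)))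
      ((C + D + 10) * (n + 1) ^ 2) (conAt P (Ax P) n) := by
    intro n
    obtain ⟨M0, hM0⟩ : ∃ M0, M0 = sz Ψ + 33 * n + MU N0 n := ⟨_, rfl⟩
    obtain ⟨M, hM⟩ : ∃ M, M = 20 * D * M0 := ⟨_, rfl⟩
    rw [← hM0, ← hM]
    have hMU := MU_pos N0 n
    have hD1 : 1 ≤ D := by omega
    have hM0M : 20 * M0 ≤ M := by rw [hM]; nlinarith
    have hMUM : MU N0 n ≤ M := by omega
    have hsW : ∀ j ≤ n, sz (blk^[j] Ψ) ≤ M0 := fun j hj => by
      rw [sz_iter, hM0]; omega
    have hCM : M ≤ C * M := Nat.le_mul_of_pos_left _ hC1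
    have hDM : D * MU N0 n ≤ M := by rw [hM]; nlinarith
    -- the end
    have E0 : Dv (Ax P) (k + C) (C * M) (Ce * CI * (n + 1)) (.imp (Jf (Uf N0 n) 0) Ψ) := by
      have := he (tdI N0 n) (Ax P) CI (CI * MU N0 n) (CI * (n + 1))
        (hI (Ax P) Ne N0 n n (by omega) le_rfl) (by nlinarith) (by nlinarith)
        (fun ψ hψ => by rw [tdI_noPl (noPl_Ax hA ψ hψ)]; exact hψ)
      have e : (tdI N0 n).tr (.imp (Jf B0 0) (.all 3 (.imp (.eq 3 0) (con P (Ax P))))) =
          .imp (Jf (Uf N0 n) 0) Ψ := by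
        have e1 : (tdI N0 n).tr (con P (Ax P)) = con P (Ax P) :=
          tdI_noPl (noPl_inst (noPl_inst ⟨noPl_arith hA, trivial⟩))
        rw [hΨ]
        show Fm.imp (Jf (Uf N0 n) 0) (.all 3 (.imp (.eq 3 0) ((tdI N0 n).tr (con P (Ax P))))) = _
        rw [e1]
      rw [e] at this
      refine this.mono (by omega) ?_ (by rw [mul_assoc])
      refine le_trans ?_ hCM
      refine le_trans ?_ hDM
      rw [← mul_assoc]
      exact Nat.mul_le_mul_right _ (by omega)
    -- the induction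
    have E1 : ∀ j ≤ n, Dv (Ax P) (k + C) (C * M) (Ce * CI * (n + 1) + j * (C * (n + 1)))
        (.imp (Jf (Uf N0 (n - j)) 0) (blk^[j] Ψ)) := by
      intro j
      induction j with
      | zero => intro _; simpa using E0
      | succ j ih =>
        intro hj
        have h1 := ih (by omega)
        have e : n - j = n - (j + 1) + 1 := by omega
        rw [e] at h1
        have h2 := hstep (Ax P) N0 n (n - (j + 1)) k M _ (blk^[j] Ψ) (by omega)
          (fun ψ hψ => by simp [Ax, TB, hψ]) (by omega) (by omega) (cx_iter (by omega) hΨc j)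
          (hWf j) hMUM ((hsW j (by omega)).trans (by omega)) h1
        rw [Function.iterate_succ_apply']
        refine h2.mono le_rfl le_rfl ?_
        rw [add_mul, one_mul, add_assoc]
    have E2 := E1 n le_rfl
    rw [Nat.sub_self] at E2
    -- the base
    have E3 : Dv (Ax P) (k + C) (C * M) (Cb * CI * (n + 1)) (.imp (.zero 0) (Jf (Uf N0 0) 0)) := by
      have := hb (tdI N0 0) (Ax P) CI (CI * MU N0 n) (CI * (n + 1))
        (hI (Ax P) Nb N0 n 0 (by omega) (by omega)) (by nlinarith) (by nlinarith)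
        (fun ψ hψ => by
          have hψ' : ψ ∈ Ax P := by simp [Ax, TB, hψ]
          rw [tdI_noPl (noPl_Ax hA ψ hψ')]; exact hψ')
      have e : (tdI N0 0).tr (.imp (.zero 0) (Jf (fun _ => .imp .bot .bot) 0)) =
          .imp (.zero 0) (Jf (Uf N0 0) 0) := rfl
      rw [e] at this
      refine this.mono (by omega) ?_ (by rw [mul_assoc])
      refine le_trans ?_ hCM
      refine le_trans ?_ hDM
      rw [← mul_assoc]
      exact Nat.mul_le_mul_right _ (by omega)
    have s0 : sz (Jf (Uf N0 0) 0) ≤ 10 * MU N0 n := sz_Jf (by omega) (Nat.zero_le _)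
    have b0 : Both (k + 1) (Jf (Uf N0 0) 0) := (both_Jf N0 0 0).mono (by omega)
    have cW : Cx false k (blk^[n] Ψ) := cx_iter (by omega) hΨc n
    have bW : Both (k + 1) (blk^[n] Ψ) := fun s => cW.lift
    have E4 : Dv (Ax P) (k + C + Cs + 1) (C * M) Cs (.imp (.imp (.zero 0) (Jf (Uf N0 0) 0))
        (.imp (.imp (Jf (Uf N0 0) 0) (blk^[n] Ψ)) (.imp (.zero 0) (blk^[n] Ψ)))) := by
      refine (hs (Ax P) (k + 1) (11 * M0) (.zero 0) (Jf (Uf N0 0) 0) (blk^[n] Ψ)
        (fun s => .zero _ _ _) b0 bW ?_ ?_ ?_).mono ?_ ?_ le_rfl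
      · simp only [sz_zero]; omega
      · omega
      · exact (hsW n le_rfl).trans (by omega)
      · omega
      · refine le_trans ?_ hCM
        rw [hM]
        have : Cs * (11 * M0 + 1) ≤ Cs * (20 * M0) := Nat.mul_le_mul_left _ (by omega)
        refine this.trans ?_
        have h3 : Cs * (20 * M0) ≤ D * (20 * M0) := Nat.mul_le_mul_right _ (by omega)
        refine h3.trans (le_of_eq ?_)
        ring
    have E5 := (E4.mp (E3.mono (by omega) le_rfl le_rfl)).mp (E2.mono (by omega) le_rfl le_rfl)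
    have E6 := E5.gen 0 (by omega) (by
      have := hsW n le_rfl
      rw [sz_all, sz_imp, sz_zero]
      omega)
    rw [hcon]
    refine E6.mono le_rfl le_rfl ?_
    rw [hD]
    generalize Ce * CI = u
    generalize Cb * CI = w
    nlinarith [Nat.zero_le (u * n), Nat.zero_le (w * n), Nat.zero_le (u * n ^ 2),
      Nat.zero_le (w * n ^ 2), Nat.zero_le (Cs * n), Nat.zero_le (Cs * n ^ 2), Nat.zero_le (C * n),
      Nat.zero_le (C * n ^ 2)]
  refine ⟨k + C + Cs + 1 + 1, (C + D + 10) * (C * (20 * D * (sz Ψ + 33 + (100 + 100 * N0)))),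
    fun n => ?_⟩
  obtain ⟨π, h1, h2, h3⟩ := main n
  refine ⟨π, h1, (length_strs fun ψ hψ => (h3 ψ hψ).sz).trans ?_, fun ψ hψ => (h3 ψ hψ).cx.lift⟩
  refine (Nat.mul_le_mul_right _ h2).trans ?_
  have e1 : sz Ψ + 33 * n + MU N0 n ≤ (sz Ψ + 33 + (100 + 100 * N0)) * (n + 1) ^ 2 := by
    unfold MU
    nlinarith [Nat.zero_le (sz Ψ * n), Nat.zero_le (sz Ψ * n ^ 2), Nat.zero_le (n ^ 2)]
  calc (C + D + 10) * (n + 1) ^ 2 * (C * (20 * D * (sz Ψ + 33 * n + MU N0 n)))
      ≤ (C + D + 10) * (n + 1) ^ 2 * (C * (20 * D * ((sz Ψ + 33 + (100 + 100 * N0)) *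
        (n + 1) ^ 2))) := by gcongr
    _ = _ := by ring

end Pool.Agent.T9h6.BC
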